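import Pool.Agent.Helper10.PN.TanN
import Pool.Agent.Helper74.PQ.BadLine

/-!
# PN-BADN: lines which meet the generic hypersurface of degree `q = 2 N` in at most two points do
# not move

Copy of `bad_line` (`Helper74/PQ/BadLine.lean`) with `tan_n`.
-/

set_option autoImplicit false

namespace Pool.Agent.Helper10.PN

open scoped BigOperators
open Pool.Agent.Helper8.LG (form mon)
open Pool.Agent.Helper74.PQ

/-- the derivation of the minors, upstairs -/
theorem badN_minor {E : Type*} [Field E] (δ : Derivation ℤ E E) {N : ℕ} (p r : Fin (N + 1) → E) (c c' k : E)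
    (hk : k ≠ 0) (hp : ∀ l, δ (p l) = c * p l) (hr : ∀ l, δ (r l) = c' * r l) (w : E)
    (j l : Fin (N + 1)) (hw : p j * r l - p l * r j = k * w) :
    δ w = (c + c' - δ k / k) * w := by
  have h1 : δ (k * w) = (c + c') * (k * w) := by
    rw [← hw, map_sub, Derivation.leibniz, Derivation.leibniz, hp, hp, hr, hr]
    simp only [smul_eq_mul]
    ring
  rw [Derivation.leibniz] at h1
  simp only [smul_eq_mul] at h1
  have h2 : k * δ w = k * ((c + c' - δ k / k) * w) := by
    have h3 : k * ((c + c' - δ k / k) * w) = (c + c') * (k * w) - δ k * w := by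
      field_simp
    rw [h3]
    linear_combination h1
  exact mul_left_cancel₀ hk h2

theorem bad_n {K : Type*} [Field K] [CharZero K] {N q : ℕ} (hq : q = 2 * N)
    (a : Sym (Fin (N + 1)) q → K) (D : Sym (Fin (N + 1)) q → Derivation ℤ K K)
    (hD : ∀ I J, D J (a I) = if I = J then 1 else 0) (u v : Fin (N + 1) → K) (b b' : Fin (N + 1))
    (hpi : u b * v b' - u b' * v b ≠ 0) (hv : form a v ≠ 0) (h : Polynomial K) (h0 : h ≠ 0)
    (n : ℕ) (hdvd : Pool.Agent.Helper10.LB.lf a u v ∣ h ^ n) (hdeg : h.natDegree < 3)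
    (δ : Derivation ℤ K K) (hδ : ∀ J, δ (a J) = 0) :
    ∃ c : K, ∀ j l, δ (u j * v l - u l * v j) = c * (u j * v l - u l * v j) := by
  classical
  let E := h.SplittingField
  let φ : K →+* E := algebraMap K E
  have hφ : Function.Injective φ := φ.injective
  have : CharZero E := charZero_of_injective_algebraMap hφ
  have hhK0 : h.map φ ≠ 0 := (Polynomial.map_ne_zero_iff hφ).2 h0
  have hhK : (h.map φ).Splits := Polynomial.SplittingField.splits h
  obtain ⟨ρ₁, ρ₂, hρ, hroots⟩ := badLine_roots (h.map φ)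
    (by rw [Polynomial.natDegree_map]; omega)
  choose D' hD' using fun s => Pool.Agent.Helper10.LB.der_ext (K := E) (D s)
  obtain ⟨δ', hδ'⟩ := Pool.Agent.Helper10.LB.der_ext (K := E) δ
  have hDual : ∀ I J, D' J (φ (a I)) = if I = J then 1 else 0 := by
    intro I J
    have h1 := hD' J (a I)
    rw [hD I J] at h1
    rw [show D' J (φ (a I)) = _ from h1]
    split_ifs
    · exact map_one φ
    · exact map_zero φ
  -- the factorisation
  have hv' : form (fun J => φ (a J)) (fun l => φ (v l)) ≠ 0 := by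
    rw [← Pool.Agent.Helper10.LB.pd_map_form]
    exact (map_ne_zero φ).2 hv
  have hc := Pool.Agent.Helper10.LB.lf_coeff_top (fun J => φ (a J)) (fun l => φ (u l))
    (fun l => φ (v l))
  have hle := Pool.Agent.Helper10.LB.lf_natDegree_le (fun J => φ (a J)) (fun l => φ (u l))
    (fun l => φ (v l))
  have hdg : (Pool.Agent.Helper10.LB.lf (fun J => φ (a J)) (fun l => φ (u l))
      (fun l => φ (v l))).natDegree = q := by
    refine le_antisymm hle (Polynomial.le_natDegree_of_ne_zero ?_)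
    rw [hc]
    exact hv'
  have hf0 : Pool.Agent.Helper10.LB.lf (fun J => φ (a J)) (fun l => φ (u l))
      (fun l => φ (v l)) ≠ 0 := by
    intro h1
    rw [h1, Polynomial.coeff_zero] at hc
    exact hv' hc.symm
  obtain ⟨α, β, h1, h2⟩ := badLine_fact _ _ hf0 hhK0 hhK n (by
    rw [← Pool.Agent.Helper10.LB.lf_map, ← Polynomial.map_pow]
    exact Polynomial.map_dvd φ hdvd) ρ₁ ρ₂ hρ hroots
  have hαβ : α + β = q := h1.trans hdg
  rw [Polynomial.leadingCoeff, hdg, hc] at h2
  have hk : ρ₂ - ρ₁ ≠ 0 := sub_ne_zero.2 hρ.symm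
  have hmin : ∀ j l : Fin (N + 1), (φ (u j) + ρ₁ * φ (v j)) * (φ (u l) + ρ₂ * φ (v l)) -
      (φ (u l) + ρ₁ * φ (v l)) * (φ (u j) + ρ₂ * φ (v j)) =
      (ρ₂ - ρ₁) * φ (u j * v l - u l * v j) := by
    intro j l
    rw [map_sub, map_mul, map_mul]
    ring
  have hdet : (φ (u b) + ρ₁ * φ (v b)) * (φ (u b') + ρ₂ * φ (v b')) -
      (φ (u b') + ρ₁ * φ (v b')) * (φ (u b) + ρ₂ * φ (v b)) ≠ 0 := by
    rw [hmin]
    exact mul_ne_zero hk ((map_ne_zero φ).2 hpi)
  obtain ⟨c, c', hp, hr⟩ := tan_n hq (fun J => φ (a J)) D' hDual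
    (fun l => φ (u l) + ρ₁ * φ (v l)) (fun l => φ (u l) + ρ₂ * φ (v l)) b b' hdet
    (form (fun J => φ (a J)) (fun l => φ (v l)) * ((ρ₂ - ρ₁) ^ α * (ρ₁ - ρ₂) ^ β)) β α
    ((Nat.add_comm β α).trans hαβ) (fun s t => by
      have h3 := badLine_hom (fun J => φ (a J)) (fun l => φ (u l)) (fun l => φ (v l)) ρ₁ ρ₂ α β
        hαβ h2 s t
      rw [h3, mul_pow, mul_pow]
      ring) δ' (fun J => by
      have h3 := hδ' (a J)
      rw [hδ J, map_zero] at h3
      exact h3)
  have key : ∀ j l, φ (δ (u j * v l - u l * v j)) =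
      (c + c' - δ' (ρ₂ - ρ₁) / (ρ₂ - ρ₁)) * φ (u j * v l - u l * v j) := by
    intro j l
    rw [← hδ']
    exact badN_minor δ' _ _ c c' _ hk hp hr _ j l (hmin j l)
  have hw0 : φ (u b * v b' - u b' * v b) ≠ 0 := (map_ne_zero φ).2 hpi
  refine ⟨δ (u b * v b' - u b' * v b) / (u b * v b' - u b' * v b), fun j l => hφ ?_⟩
  have k1 := key b b'
  have k2 : c + c' - δ' (ρ₂ - ρ₁) / (ρ₂ - ρ₁) =
      φ (δ (u b * v b' - u b' * v b)) / φ (u b * v b' - u b' * v b) := by
    rw [k1, mul_div_cancel_right₀ _ hw0]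
  rw [key, k2, map_mul, map_div₀]

end Pool.Agent.Helper10.PN
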