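import Pool.Agent.Helper10.PN.DetN

/-!
# PN-EXCHN: exchange

Among the `t` whose rows are elements of `S` (`ε i = 2`) or unit vectors (`ε i = 0`) with
`dN w t ≠ 0` (there are some by `dN_unit`, all rows unit vectors) choose one with the maximal number
of `i` with `ε i = 2`. If this number is `N`: first alternative. Otherwise let `s ∈ S` with
`dN s t ≠ 0`: `s, t` is a basis, `w = c s + ∑ c_i t_i`, `c_k dN s t = - dN w (update t k s)`
(expand, or Cramer as in `dN_cramer`). If `dN w (update t k s) = 0` for all `k` with `ε k = 0`, then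
`w = c s + ∑ c_i t_i` over the `i` with `ε i = 2`, all orthogonal to `g`, a contradiction to
`g . w ≠ 0`. So some `k` with `ε k = 0` can be replaced: a contradiction to the choice.
-/

set_option autoImplicit false

namespace Pool.Agent.Helper10.PN

open scoped BigOperators
open Pool.Agent.Helper6.QS (dt)

variable {Ω : Type*} [Field Ω] {N : ℕ}

theorem exchN_eq0 (z : Fin (N + 1) → Ω) (t : Fin N → Fin (N + 1) → Ω) (i : Fin N)
    (h : t i = z) : dN z t = 0 := by
  unfold dN
  refine Matrix.det_zero_of_row_eq (i := 0) (j := i.succ) (Fin.succ_ne_zero i).symm ?_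
  funext c
  simp [h]

theorem exchN_swap (s : Fin (N + 1) → Ω) (t : Fin N → Fin (N + 1) → Ω) (k : Fin N) :
    dN (t k) (Function.update t k s) = - dN s t := by
  have h := AlternatingMap.map_swap (Matrix.detRowAlternating (R := Ω) (n := Fin (N + 1)))
    (Fin.cons s t : Fin (N + 1) → Fin (N + 1) → Ω) (i := 0) (j := k.succ)
    (Fin.succ_ne_zero k).symm
  have e : (Fin.cons s t : Fin (N + 1) → Fin (N + 1) → Ω) ∘ Equiv.swap 0 k.succ =
      (Fin.cons (t k) (Function.update t k s) : Fin (N + 1) → Fin (N + 1) → Ω) := by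
    funext i
    refine Fin.cases ?_ (fun i => ?_) i
    · simp
    · by_cases hik : i = k
      · subst hik; simp
      · have h1 : i.succ ≠ k.succ := fun hh => hik (Fin.succ_injective _ hh)
        rw [Function.comp_apply, Equiv.swap_apply_of_ne_of_ne (Fin.succ_ne_zero i) h1]
        simp [Function.update_of_ne hik]
  rw [e] at h
  exact h

theorem exchN_basis (s w : Fin (N + 1) → Ω) (t : Fin N → Fin (N + 1) → Ω) (h : dN s t ≠ 0) :
    ∃ (c : Ω) (d : Fin N → Ω), w = c • s + ∑ i, d i • t i := by
  have hu : IsUnit (Matrix.of (Fin.cons s t : Fin (N + 1) → Fin (N + 1) → Ω)).det :=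
    isUnit_iff_ne_zero.mpr h
  set A : Matrix (Fin (N + 1)) (Fin (N + 1)) Ω :=
    Matrix.of (Fin.cons s t : Fin (N + 1) → Fin (N + 1) → Ω) with hA
  refine ⟨(Matrix.vecMul w A⁻¹) 0, fun i => (Matrix.vecMul w A⁻¹) i.succ, ?_⟩
  have h1 : Matrix.vecMul (Matrix.vecMul w A⁻¹) A = w := by
    rw [Matrix.vecMul_vecMul, Matrix.nonsing_inv_mul A hu, Matrix.vecMul_one]
  funext c
  have h2 := congrFun h1 c
  rw [← h2, Matrix.vecMul, dotProduct, Fin.sum_univ_succ]
  simp [hA, Finset.sum_apply]

theorem exchN_step (g w : Fin (N + 1) → Ω) (hw : dt g w ≠ 0) (s : Fin (N + 1) → Ω)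
    (hs : dt g s = 0) (t : Fin N → Fin (N + 1) → Ω) (P : Fin N → Prop)
    (hP : ∀ i, ¬ P i → dt g (t i) = 0) (h : dN s t ≠ 0) :
    ∃ k, P k ∧ dN w (Function.update t k s) ≠ 0 := by
  by_contra hc
  push Not at hc
  obtain ⟨c, d, hcd⟩ := exchN_basis s w t h
  have hd : ∀ k, P k → d k = 0 := by
    intro k hk
    have h1 := hc k hk
    rw [← dNl_apply, hcd, map_add, map_smul, map_sum] at h1
    rw [dNl_apply, exchN_eq0 s _ k (Function.update_self k s t), smul_zero, zero_add] at h1
    rw [Finset.sum_eq_single k] at h1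
    · rw [map_smul, dNl_apply, exchN_swap, smul_eq_mul, mul_neg, neg_eq_zero] at h1
      exact (mul_eq_zero.mp h1).resolve_right h
    · intro i _ hik
      rw [map_smul, dNl_apply, exchN_eq0 (t i) _ i (Function.update_of_ne hik s t), smul_zero]
    · intro hh
      exact absurd (Finset.mem_univ k) hh
  apply hw
  have h2 : dt g w = c * dt g s + ∑ i, d i * dt g (t i) := by
    rw [hcd]
    simp only [dt, Pi.add_apply, Pi.smul_apply, Finset.sum_apply, smul_eq_mul, mul_add,
      Finset.sum_add_distrib, Finset.mul_sum]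
    congr 1
    · exact Finset.sum_congr rfl fun i _ => by ring
    · rw [Finset.sum_comm]
      exact Finset.sum_congr rfl fun i _ => Finset.sum_congr rfl fun j _ => by ring
  rw [h2, hs, mul_zero, zero_add]
  refine Finset.sum_eq_zero fun i _ => ?_
  by_cases hi : P i
  · rw [hd i hi, zero_mul]
  · rw [hP i hi, mul_zero]

theorem exch (g w : Fin (N + 1) → Ω) (hw : dt g w ≠ 0) (S : Set (Fin (N + 1) → Ω))
    (hS : ∀ s ∈ S, dt g s = 0) :
    (∃ t : Fin N → Fin (N + 1) → Ω, (∀ i, t i ∈ S) ∧ dN w t ≠ 0) ∨
    ∃ (t : Fin N → Fin (N + 1) → Ω) (ε : Fin N → ℤ), dN w t ≠ 0 ∧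
      (∀ i, (ε i = 2 ∧ t i ∈ S) ∨ (ε i = 0 ∧ ∃ k, t i = Pi.single k 1)) ∧
      (∃ i, ε i = 0) ∧ ∀ s ∈ S, dN s t = 0 := by
  classical
  by_contra hcon
  rw [not_or] at hcon
  obtain ⟨hA, hB⟩ := hcon
  have hw0 : w ≠ 0 := by
    rintro rfl
    exact hw (by simp [dt])
  have key : ∀ n : ℕ, ∃ (t : Fin N → Fin (N + 1) → Ω) (ε : Fin N → ℤ), dN w t ≠ 0 ∧
      (∀ i, (ε i = 2 ∧ t i ∈ S) ∨ (ε i = 0 ∧ ∃ k, t i = Pi.single k 1)) ∧
      n ≤ (Finset.univ.filter fun i => ε i = 2).card := by
    intro n
    induction n with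
    | zero =>
      obtain ⟨t, h1, h2⟩ := dN_unit w hw0
      exact ⟨t, fun _ => 0, h2, fun i => Or.inr ⟨rfl, h1 i⟩, Nat.zero_le _⟩
    | succ n ih =>
      obtain ⟨t, ε, h1, h2, h3⟩ := ih
      by_cases h4 : ∃ i, ε i = 0
      · by_cases h5 : ∀ s ∈ S, dN s t = 0
        · exact absurd ⟨t, ε, h1, h2, h4, h5⟩ hB
        · push Not at h5
          obtain ⟨s, hs, h6⟩ := h5
          obtain ⟨k, hk, h7⟩ := exchN_step g w hw s (hS s hs) t (fun i => ε i = 0)
            (fun i hi => hS _ (((h2 i).resolve_right fun hh => hi hh.1).2)) h6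
          refine ⟨Function.update t k s, Function.update ε k 2, h7, fun i => ?_, ?_⟩
          · by_cases hik : i = k
            · subst hik
              left
              rw [Function.update_self, Function.update_self]
              exact ⟨rfl, hs⟩
            · rw [Function.update_of_ne hik, Function.update_of_ne hik]
              exact h2 i
          · have h8 : (Finset.univ.filter fun i => ε i = 2) ⊂
                (Finset.univ.filter fun i => Function.update ε k 2 i = 2) := by
              rw [Finset.ssubset_iff_of_subset]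
              · refine ⟨k, ?_, ?_⟩
                · simp
                · simp [hk]
              · intro i hi
                rw [Finset.mem_filter] at hi ⊢
                refine ⟨hi.1, ?_⟩
                by_cases hik : i = k
                · subst hik; rw [Function.update_self]
                · rw [Function.update_of_ne hik]; exact hi.2
            have h9 := Finset.card_lt_card h8
            omega
      · push Not at h4
        exact absurd ⟨t, fun i => ((h2 i).resolve_right fun hh => h4 i hh.1).2, h1⟩ hA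
  obtain ⟨t, ε, -, -, h⟩ := key (N + 1)
  have h1 : (Finset.univ.filter fun i => ε i = 2).card ≤ N := by
    have h2 := Finset.card_le_univ (Finset.univ.filter fun i : Fin N => ε i = 2)
    rwa [Fintype.card_fin] at h2
  omega

/-- two given independent vectors can be put in two rows -/
theorem exch_two (g w : Fin (N + 1) → Ω) (hg : g ≠ 0) (t : Fin N → Fin (N + 1) → Ω)
    (ht : ∀ i, dt g (t i) = 0) (hw : dN w t ≠ 0) (u v : Fin (N + 1) → Ω) (hu : dt g u = 0)
    (hv : dt g v = 0) (hne : ∃ i j, u i * v j ≠ u j * v i) :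
    ∃ k l : Fin N, k ≠ l ∧ dN w (Function.update (Function.update t k u) l v) ≠ 0 := by
  obtain ⟨i, j, hij⟩ := hne
  have hu0 : u ≠ 0 := by
    rintro rfl
    apply hij
    simp
  obtain ⟨k, hk⟩ : ∃ k, dN w (Function.update t k u) ≠ 0 := by
    by_contra hc
    push Not at hc
    exact hu0 (dN_cramer g w hg t ht hw u hu hc)
  have ht' : ∀ i, dt g (Function.update t k u i) = 0 := by
    intro i
    by_cases hik : i = k
    · subst hik; rw [Function.update_self]; exact hu
    · rw [Function.update_of_ne hik]; exact ht i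
  by_contra hc
  push Not at hc
  have hsp := dN_span g w hg (Function.update t k u) ht' hk v hv
  rw [Finset.sum_eq_single k] at hsp
  · rw [Function.update_self] at hsp
    apply hij
    rw [hsp]
    simp only [Pi.smul_apply, smul_eq_mul]
    ring
  · intro l _ hl
    rw [hc k l (Ne.symm hl), zero_div, zero_smul]
  · intro hh
    exact absurd (Finset.mem_univ k) hh

end Pool.Agent.Helper10.PN
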