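import Pool.Agent.Helper10.PN.SingN
import Pool.Agent.Helper10.PN.ExchN

/-!
# PN-BLOCKN: one block and `N - 2` singles

`et (P lf l)` is a combination of the `et (P lf (rr x 0 b))` (`et_lf_span`), so there are `b1`, `b2`
such that `u = et (P lf (rr x 0 b1))`, `v = et (P lf (rr x 0 b2))` are independent. `exch_two` with
the basis `t` of the singles: rows `k`, `l` replaced by `u`, `v`; take a third row `k'` (`N ≥ 3`):
`single_line`. The weight of `dN z (.. u .. v ..)`, `z = et (X_m^q)`: by multilinearity in the two
rows and `x_0 = 1`, with `A_c = et (P X_c)`: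
`dN (.., x_0 A_b1 - x_b1 A_0, x_0 A_b2 - x_b2 A_0) =
 x_0 dN (.., A_b1, A_b2) - x_b2 dN (.., A_b1, A_0) - x_b1 dN (.., A_0, A_b2)`
(multiply out, `dN (.., A_0, A_0) = 0`, `x_0^2 = x_0 = 1`), each term of weight
`1 + (1 + 1 + 1) + 2 (N - 2) = q` (`wa_detN`, `WA.coord`).
-/

set_option autoImplicit false

namespace Pool.Agent.Helper10.PN

open scoped BigOperators
open MvPolynomial
open Pool.Agent.Helper8.LG (Bdd RowBdd form mon)
open Pool.Agent.Helper6.QS
open Pool.Agent.Helper74.Q8 (rr)
open Pool.Agent.Helper74.PQ

variable {Ω : Type*} [Field Ω] [CharZero Ω] {N q : ℕ} {D : Sym (Fin (N + 1)) q → Derivation ℤ Ω Ω}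
  {a : Sym (Fin (N + 1)) q → Ω} {B : Subfield Ω} {x : Fin (N + 1) → Ω}

/-- expansion of two rows -/
theorem BlockN_two {Ω : Type*} [Field Ω] {N : ℕ} (z : Fin (N + 1) → Ω)
    (t : Fin N → Fin (N + 1) → Ω) (k l : Fin N) (hkl : k ≠ l) (A0 A1 A2 : Fin (N + 1) → Ω)
    (c1 c2 : Ω) :
    dN z (Function.update (Function.update t k (A1 + (-c1) • A0)) l (A2 + (-c2) • A0)) =
      dN z (Function.update (Function.update t k A1) l A2) -
        c2 * dN z (Function.update (Function.update t k A1) l A0) -
        c1 * dN z (Function.update (Function.update t k A0) l A2) := by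
  have h0 : dN z (Function.update (Function.update t k A0) l A0) = 0 := by
    refine dN_eq z _ k l hkl ?_
    rw [Function.update_self, Function.update_of_ne hkl, Function.update_self]
  have hl : ∀ v, dN z (Function.update (Function.update t k (A1 + (-c1) • A0)) l v) =
      dN z (Function.update (Function.update t k A1) l v) +
        (-c1) * dN z (Function.update (Function.update t k A0) l v) := by
    intro v
    rw [Function.update_comm hkl, Function.update_comm hkl, Function.update_comm hkl,
      dN_upd_add, dN_upd_smul]
  rw [hl, dN_upd_add, dN_upd_add, dN_upd_smul, dN_upd_smul, h0]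
  ring

omit [CharZero Ω] in
/-- two of the vectors `et (P lf (rr x 0 b))` are independent -/
theorem BlockN_ind (hx : x 0 = 1) (P : MvPolynomial (Fin (N + 1)) Ω)
    (l l' : Fin (N + 1) → Ω) (hl : dt l x = 0) (hl' : dt l' x = 0) (i i' : Fin (N + 1))
    (hne : et D a x (P * lf l) i * et D a x (P * lf l') i' ≠
      et D a x (P * lf l) i' * et D a x (P * lf l') i) :
    ∃ b1 b2, ∃ i j, et D a x (P * lf (rr x 0 b1)) i * et D a x (P * lf (rr x 0 b2)) j ≠
      et D a x (P * lf (rr x 0 b1)) j * et D a x (P * lf (rr x 0 b2)) i := by
  by_contra hcon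
  push Not at hcon
  apply hne
  have e1 : ∀ r, et D a x (P * lf l) r = ∑ b, l b * et D a x (P * lf (rr x 0 b)) r := by
    intro r
    rw [et_lf_span hx P l hl, Finset.sum_apply]
    rfl
  have e2 : ∀ r, et D a x (P * lf l') r = ∑ b, l' b * et D a x (P * lf (rr x 0 b)) r := by
    intro r
    rw [et_lf_span hx P l' hl', Finset.sum_apply]
    rfl
  rw [e1 i, e1 i', e2 i, e2 i', Finset.sum_mul_sum, Finset.sum_mul_sum]
  refine Finset.sum_congr rfl fun b1 _ => Finset.sum_congr rfl fun b2 _ => ?_
  linear_combination (l b1 * l' b2) * hcon b1 b2 i i'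

omit [CharZero Ω] in
/-- the vector `et (P lf (rr x 0 b))` -/
theorem BlockN_rr (hx : x 0 = 1) (P : MvPolynomial (Fin (N + 1)) Ω) (b : Fin (N + 1)) :
    et D a x (P * lf (rr x 0 b)) =
      et D a x (P * X b) + (-(x b)) • et D a x (P * X 0) := by
  rw [lf_rrN, hx, one_smul, mul_sub, mul_smul_comm, map_sub, map_smul, neg_smul, sub_eq_add_neg]

theorem BlockN_sum (k l : Fin N) (hkl : k ≠ l) :
    (1 : ℤ) + ∑ i, (if i = k then (1 : ℤ) else if i = l then 1 else 2) = 2 * N - 1 := by
  have h1 : ∀ i : Fin N, (if i = k then (1 : ℤ) else if i = l then 1 else 2) =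
      2 - (if i = k then 1 else 0) - (if i = l then 1 else 0) := by
    intro i
    by_cases hk : i = k
    · subst hk
      simp [hkl]
    · by_cases hl : i = l
      · subst hl
        simp [hk]
      · simp [hk, hl]
  rw [Finset.sum_congr rfl fun i _ => h1 i, Finset.sum_sub_distrib, Finset.sum_sub_distrib]
  simp
  ring

theorem block_n (h : PtN D a B x) (K : Fin N → Fin (N + 1) →₀ ℕ) (j b : Fin N → Fin (N + 1))
    (hK : Bas D a x K j b) (P : MvPolynomial (Fin (N + 1)) Ω) (hP : RatP B P)
    (l l' : Fin (N + 1) → Ω) (hl : dt l x = 0) (hl' : dt l' x = 0) (i i' : Fin (N + 1))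
    (hne : et D a x (P * lf l) i * et D a x (P * lf l') i' ≠
      et D a x (P * lf l) i' * et D a x (P * lf l') i) : LnN B x := by
  obtain ⟨b1, b2, hind⟩ := BlockN_ind h.one P l l' hl hl' i i' hne
  set t : Fin N → Fin (N + 1) → Ω := fun i => sg D a x (K i) (j i) (b i) with ht
  set u : Fin (N + 1) → Ω := et D a x (P * lf (rr x 0 b1)) with hu
  set v : Fin (N + 1) → Ω := et D a x (P * lf (rr x 0 b2)) with hv
  have hgu : dt (gr a x) u = 0 := gr_lfN h _ _ (rr_xN x 0 b1)
  have hgv : dt (gr a x) v = 0 := gr_lfN h _ _ (rr_xN x 0 b2)
  obtain ⟨k, n, hkn, hdn⟩ := exch_two (gr a x) (et D a x (X 0 ^ q)) (gr_neN h) t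
    (fun i => gr_sg h _ _ _) hK u v hgu hgv hind
  obtain ⟨k', hk1, hk2⟩ : ∃ k' : Fin N, k' ≠ k ∧ k' ≠ n := by
    have hN := h.hN
    by_contra hcon
    push Not at hcon
    have hc : (Finset.univ : Finset (Fin N)) ⊆ {k, n} := by
      intro r _
      rw [Finset.mem_insert, Finset.mem_singleton]
      by_cases hr : r = k
      · exact Or.inl hr
      · exact Or.inr (hcon r hr)
    have h1 := Finset.card_le_card hc
    rw [Finset.card_univ, Fintype.card_fin] at h1
    have h2 := Finset.card_le_two (a := k) (b := n)
    omega
  refine single_line h (Function.update (Function.update t k u) n v) ?_ k' (K k') ?_ ?_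
  · intro r
    by_cases hr : r = n
    · subst hr
      rw [Function.update_self]
      exact hgv
    · rw [Function.update_of_ne hr]
      by_cases hr2 : r = k
      · subst hr2
        rw [Function.update_self]
        exact hgu
      · rw [Function.update_of_ne hr2]
        exact gr_sg h _ _ _
  · refine ⟨j k', b k', ?_⟩
    have e : Function.update (Function.update (Function.update t k u) n v) k'
        (sg D a x (K k') (j k') (b k')) = Function.update (Function.update t k u) n v := by
      rw [Function.update_eq_self_iff, Function.update_of_ne hk2, Function.update_of_ne hk1]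
    rw [e]
    exact hdn
  · intro j' b' m hm
    set s : Fin (N + 1) → Ω := sg D a x (K k') j' b' with hs
    set z : Fin (N + 1) → Ω := et D a x (X m ^ q) with hz
    have e : Function.update (Function.update (Function.update t k u) n v) k' s =
        Function.update (Function.update (Function.update t k' s) k u) n v := by
      rw [Function.update_comm hk2.symm, Function.update_comm hk1.symm]
    have hA : ∀ c r, WA D a B x (fun _ => True) m 1 (et D a x (P * X c) r) := fun c r =>
      wa_etN h hm _ (ratP_mul hP (ratP_X c)) r
    have hW : ∀ c c', WA D a B x (fun _ => True) m (2 * N - 1)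
        (dN z (Function.update (Function.update (Function.update t k' s) k
          (et D a x (P * X c))) n (et D a x (P * X c')))) := by
      intro c c'
      have h1 := wa_detN (D := D) (a := a) (B := B) (C := fun _ => True) hm z
        (Function.update (Function.update (Function.update t k' s) k
          (et D a x (P * X c))) n (et D a x (P * X c'))) 1
        (fun i => if i = k then (1 : ℤ) else if i = n then 1 else 2)
        (wa_powN h hm) (by
          intro r r'
          by_cases hrk : r = k
          · subst hrk
            rw [if_pos rfl, Function.update_of_ne hkn, Function.update_self]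
            exact hA c r'
          · rw [if_neg hrk]
            by_cases hrn : r = n
            · subst hrn
              rw [if_pos rfl, Function.update_self]
              exact hA c' r'
            · rw [if_neg hrn, Function.update_of_ne hrn, Function.update_of_ne hrk]
              by_cases hrk' : r = k'
              · subst hrk'
                rw [Function.update_self]
                exact wa_sgN h hm _ _ _ _
              · rw [Function.update_of_ne hrk']
                exact wa_sgN h hm _ _ _ _)
      rwa [BlockN_sum k n hkn] at h1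
    have hq : (q : ℤ) = 1 + (2 * N - 1) := by
      have := h.hq
      push_cast [this]
      ring
    rw [e, hu, hv, BlockN_rr h.one P b1, BlockN_rr h.one P b2, BlockN_two _ _ _ _ hkn, hq]
    refine WA.sub (WA.sub ?_ ?_) ?_
    · have h1 := WA.mul hm (WA.coord (D := D) (a := a) (B := B) (C := fun _ => True)
        (m := m) (0 : Fin (N + 1))) (hW b1 b2)
      rwa [h.one, one_mul] at h1
    · exact WA.mul hm (WA.coord b2) (hW b1 0)
    · exact WA.mul hm (WA.coord b1) (hW 0 b2)

end Pool.Agent.Helper10.PN
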