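import Pool.Agent.Helper10.PN.Defs
import Pool.Agent.Helper74.LN.RigidP
import Pool.Agent.Helper8.LG.Poly

/-!
# PN-STAGETWON: rigidity: a bounded integral point lies on a line over `L`

Copy of `Helper10/PQ/StageTwoL.lean`.
-/

set_option autoImplicit false

namespace Pool.Agent.Helper10.PN

open scoped BigOperators
open MvPolynomial
open Pool.Agent.Helper8.LG
open Pool.Agent.Helper6.QS
open Pool.Agent.Helper74.PQ

universe u v w

theorem stage_two_n {N q : ℕ} (hN : 3 ≤ N) (hq : q = 2 * N) (hK : KeyN.{u} N q) {k : Type v} {L : Type w} {E : Type u}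
    [Field k] [Field L] [Field E] [CharZero E] [Algebra k L] [Algebra L E] [Algebra k E]
    [IsScalarTower k L E] {n : ℕ} (c : Fin n → E)
    (hgen : IntermediateField.adjoin L (Set.range c) = ⊤) (Bs : Set (Fin n))
    (hB : AlgebraicIndependent L (fun b : Bs => c b))
    (halg : ∀ r, IsAlgebraic (IntermediateField.adjoin k (c '' Bs)) (c r))
    (hLE : ∀ z : E, IsAlgebraic L z → ∃ b : L, algebraMap L E b = z)
    (a : Sym (Fin (N + 1)) q → L) (D : Sym (Fin (N + 1)) q → Derivation ℤ E E)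
    (hD : ∀ I J, D J (algebraMap L E (a I)) = if I = J then 1 else 0)
    (hDL : ∀ p b, ∃ b', D p (algebraMap L E b) = algebraMap L E b')
    (hDk : ∀ p (b : k), D p (algebraMap k E b) = 0) (hDc : ∀ p r, D p (c r) = 0)
    (x : Fin (N + 1) → E) (hx : x 0 = 1) (hF : form (fun J => algebraMap L E (a J)) x ≠ 0)
    (hint : ∀ J : Sym (Fin (N + 1)) q,
      mon x J / form (fun J => algebraMap L E (a J)) x ∈ Algebra.adjoin L (Set.range c)) :
    ∃ u v : Fin (N + 1) → L, (∃ b b', u b * v b' - u b' * v b ≠ 0) ∧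
      ∃ s t : E, ∀ l, x l = s * algebraMap L E (u l) + t * algebraMap L E (v l) := by
  classical
  have hfr : LFrame D (fun J => algebraMap L E (a J)) (algebraMap L E).fieldRange x := by
    refine ⟨hD, fun J => ⟨a J, rfl⟩, fun s hs y M hM => ?_⟩
    have hs' : ∀ b : s, ∃ b' : L, algebraMap L E b' = b := fun b => hs b b.2
    choose θ hθ using hs'
    obtain ⟨b, hb⟩ := hLE y (Pool.Agent.Helper74.LN.rp_alg (k := k) c hgen Bs hB halg (ι := Unit) (fun _ => q)
      (fun (_ : Unit) (J : Sym (Fin (N + 1)) q) => a J) D (fun (j : s) (_ : Sym (Fin (N + 1)) q) => θ j) hDL hDk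
      hDc ∅ x (fun _ _ => hF) (fun _ _ J => hint J) M y fun O Δ h1 h2 h3 =>
        hM O Δ h1 (fun b hb => by
          have h4 := h2 ⟨b, hb⟩ (Sym.replicate q 0)
          rw [hθ ⟨b, hb⟩] at h4
          exact h4) (h3 () (Finset.notMem_empty _)))
    exact ⟨b, hb⟩
  obtain ⟨u, v, hu, hv, ⟨b, b', hbb⟩, s, t, hx'⟩ := hK E D _ _ x ⟨hN, hq, hfr, hx, hF⟩
  choose u' hu' using hu
  choose v' hv' using hv
  refine ⟨u', v', ⟨b, b', fun h0 => hbb ?_⟩, s, t, fun l => ?_⟩
  · have h1 := congrArg (algebraMap L E) h0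
    rw [map_sub, map_mul, map_mul, map_zero, hu', hu', hv', hv'] at h1
    exact h1
  · rw [hu', hv']
    exact hx' l

end Pool.Agent.Helper10.PN
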