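import Pool.Agent.Helper8.LG.UltraCore
import Pool.Agent.Helper10.PN.StageTwoN

/-!
# PN-COREN: rigidity inside a large field

Copy of `Helper10/PQ/CoreL.lean`.
-/

set_option autoImplicit false

namespace Pool.Agent.Helper10.PN

open scoped BigOperators
open MvPolynomial
open Pool.Agent.Helper8.LG
open Pool.Agent.Helper6.QS
open Pool.Agent.Helper74.PQ

universe u v

theorem core_n {N q : ℕ} (hN : 3 ≤ N) (hq : q = 2 * N) (hK : KeyN.{u} N q) {k : Type v} {L Ω : Type u} [Field k]
    [Field L] [Field Ω] [CharZero Ω] [Algebra k L] [Algebra L Ω] [Algebra k Ω]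
    [IsScalarTower k L Ω]
    (K : Subring Ω) (hkK : ∀ b : k, algebraMap k Ω b ∈ K) (hLD : UlDisj k (L := L) K)
    {n : ℕ} (c : Fin n → Ω) (hcK : ∀ r, c r ∈ K)
    (hLE : ∀ z : Ω, IsAlgebraic L z → ∃ b : L, algebraMap L Ω b = z)
    (a : Sym (Fin (N + 1)) q → L) (D : Sym (Fin (N + 1)) q → Derivation ℤ Ω Ω)
    (hD : ∀ I J, D J (algebraMap L Ω (a I)) = if I = J then 1 else 0)
    (hDL : ∀ p b, ∃ b', D p (algebraMap L Ω b) = algebraMap L Ω b')
    (hDk : ∀ p (b : k), D p (algebraMap k Ω b) = 0) (hDc : ∀ p r, D p (c r) = 0)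
    (x : Fin (N + 1) → Ω) (hx : x 0 = 1) (G : Ω) (hG : G ≠ 0)
    (hGx : ∀ l, G * x l ∈ Algebra.adjoin L (Set.range c))
    (hF : form (fun J => algebraMap L Ω (a J)) x ≠ 0)
    (hint : ∀ J : Sym (Fin (N + 1)) q,
      mon x J / form (fun J => algebraMap L Ω (a J)) x ∈ Algebra.adjoin L (Set.range c)) :
    ∃ u v : Fin (N + 1) → L, (∃ b b', u b * v b' - u b' * v b ≠ 0) ∧
      ∃ s t : Ω, ∀ l, x l = s * algebraMap L Ω (u l) + t * algebraMap L Ω (v l) := by
  classical
  set F : IntermediateField L Ω := IntermediateField.adjoin L (Set.range c) with hFdef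
  have hsub : ∀ z ∈ Algebra.adjoin L (Set.range c), z ∈ F := fun z hz =>
    IntermediateField.algebra_adjoin_le_adjoin L _ hz
  have hFcl : F.toSubfield = Subfield.closure (Set.range (algebraMap L Ω) ∪ Set.range c) :=
    IntermediateField.adjoin_toSubfield L _
  -- the generators
  set c' : Fin n → F := fun r => ⟨c r, IntermediateField.subset_adjoin L _ ⟨r, rfl⟩⟩ with hc'
  have himg : ∀ B : Set (Fin n), (F.val : F → Ω) '' (c' '' B) = c '' B := by
    intro B
    rw [← Set.image_comp]
    rfl
  have hrange : (F.val : F → Ω) '' (Set.range c') = Set.range c := by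
    rw [← Set.image_univ, himg, Set.image_univ]
  have hgen : IntermediateField.adjoin L (Set.range c') = ⊤ := by
    apply IntermediateField.lift_injective F
    rw [IntermediateField.lift_adjoin, IntermediateField.lift_top]
    have h1 : (Subtype.val : F → Ω) '' (Set.range c') = Set.range c := hrange
    rw [h1]
  obtain ⟨B, hB1, hB2⟩ := ul_basis (k := k) c'
  have hB3 : AlgebraicIndependent k (fun b : B => c b) :=
    (AlgHom.algebraicIndependent_iff (x := fun b : B => c' b) ((F.val).restrictScalars k)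
      Subtype.val_injective).2 hB1
  have hB4 : AlgebraicIndependent L (fun b : B => c b) :=
    ul_algInd K hkK hLD _ (fun b => hcK b) hB3
  have hB5 : AlgebraicIndependent L (fun b : B => c' b) :=
    (AlgHom.algebraicIndependent_iff (x := fun b : B => c' b) F.val Subtype.val_injective).1 hB4
  have halg : ∀ r, IsAlgebraic (IntermediateField.adjoin k (c' '' B)) (c' r) := by
    intro r
    have h1 := hB2 r
    obtain ⟨p, hp0, hp⟩ := h1
    set φ : Algebra.adjoin k (c' '' B) →+* IntermediateField.adjoin k (c' '' B) :=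
      { toFun := fun z => ⟨z, IntermediateField.algebra_adjoin_le_adjoin k _ z.2⟩
        map_one' := rfl
        map_mul' := fun _ _ => rfl
        map_zero' := rfl
        map_add' := fun _ _ => rfl } with hφ
    have hφi : Function.Injective φ := by
      intro u v huv
      apply Subtype.ext
      exact congrArg (fun z : IntermediateField.adjoin k (c' '' B) => (z : F)) huv
    refine ⟨p.map φ, ?_, ?_⟩
    · rwa [Ne, Polynomial.map_eq_zero_iff hφi]
    · rw [Polynomial.aeval_def, Polynomial.eval₂_map]
      exact hp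
  -- the derivations
  have hst : ∀ p, ∀ f ∈ F, D p f ∈ F := by
    intro p f hf
    have hf' : f ∈ F.toSubfield := hf
    rw [hFcl] at hf'
    have h1 := rg_stable (D p) (Set.range (algebraMap L Ω) ∪ Set.range c) ?_ f hf'
    · rw [← hFcl] at h1
      exact h1
    · rintro g (⟨z, rfl⟩ | ⟨r, rfl⟩)
      · obtain ⟨z', hz'⟩ := hDL p z
        rw [hz']
        exact Subfield.subset_closure (Or.inl ⟨z', rfl⟩)
      · rw [hDc]
        exact zero_mem _
  set δ : Sym (Fin (N + 1)) q → Derivation ℤ F F := fun p =>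
    Derivation.mk' (AddMonoidHom.toIntLinearMap
      { toFun := fun f => (⟨D p f, hst p f f.2⟩ : F)
        map_zero' := Subtype.ext (map_zero (D p))
        map_add' := fun f g => Subtype.ext (map_add (D p) (f : Ω) g) })
      (fun f g => Subtype.ext ((D p).leibniz (f : Ω) g)) with hδ
  have hδv : ∀ p (f : F), ((δ p f : F) : Ω) = D p f := fun p f => rfl
  have hamap : ∀ b : L, ((algebraMap L F b : F) : Ω) = algebraMap L Ω b := fun b => rfl
  -- the point
  have hxF : ∀ l, x l ∈ F := by
    intro l
    have h1 : G ∈ F := by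
      have := hsub _ (hGx 0)
      rwa [hx, mul_one] at this
    have h2 : x l = G * x l / G := by field_simp
    rw [h2]
    exact div_mem (hsub _ (hGx l)) h1
  set x' : Fin (N + 1) → F := fun l => ⟨x l, hxF l⟩ with hx'
  have hform : ∀ {r : ℕ} (b : Sym (Fin (N + 1)) r → L),
      ((form (fun J => algebraMap L F (b J)) x' : F) : Ω) =
      form (fun J => algebraMap L Ω (b J)) x := fun b =>
    ul_map_form (F.val : F →+* Ω) _ _
  have hmon : ∀ {r : ℕ} (J : Sym (Fin (N + 1)) r), ((mon x' J : F) : Ω) = mon x J := fun J =>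
    ul_map_mon (F.val : F →+* Ω) _ _
  have hcz : CharZero F := inferInstance
  have hex : ∃ u v : Fin (N + 1) → L, (∃ b b', u b * v b' - u b' * v b ≠ 0) ∧
      ∃ s t : F, ∀ l, x' l = s * algebraMap L F (u l) + t * algebraMap L F (v l) := by
    refine stage_two_n (k := k) (L := L) (E := F) hN hq hK c' hgen B hB5 halg
      ?_ a δ ?_ ?_ ?_ ?_ x' (Subtype.ext hx) ?_ ?_
    · intro z hz
      obtain ⟨b, hb⟩ := hLE (z : Ω) (hz.algHom F.val)
      exact ⟨b, Subtype.ext hb⟩
    · intro I J
      apply Subtype.ext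
      rw [hδv, hamap, hD I J]
      split_ifs <;> rfl
    · intro p b
      obtain ⟨b', hb'⟩ := hDL p b
      exact ⟨b', Subtype.ext hb'⟩
    · intro p b
      exact Subtype.ext (hDk p b)
    · intro p r
      exact Subtype.ext (hDc p r)
    · intro h0
      apply hF
      rw [← hform a, h0]
      rfl
    · intro J
      have h1 := hint J
      rw [← hrange, ← AlgHom.map_adjoin] at h1
      obtain ⟨z, hz1, hz2⟩ := h1
      have h2 : mon x' J / form (fun J => algebraMap L F (a J)) x' = z := by
        apply Subtype.ext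
        have h3 : (z : Ω) = mon x J / form (fun J => algebraMap L Ω (a J)) x := hz2
        rw [h3]
        push_cast
        rw [hmon, hform]
      rw [h2]
      exact hz1
  obtain ⟨u, v, hbb, s, t, hst⟩ := hex
  refine ⟨u, v, hbb, s, t, fun l => ?_⟩
  exact congrArg (fun z : F => (z : Ω)) (hst l)

end Pool.Agent.Helper10.PN
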