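import Mathlib

/-!
# PN-GREEDYN: a sequence with at most two members on each line through the origin plane

Choose `X_m` outside the spans of all pairs of the previous members.
-/

set_option autoImplicit false

namespace Pool.Agent.Helper10.PN

open Classical in
/-- the finite sets of the construction -/
noncomputable def gSet {V : Type*} (f : Finset V → V) : ℕ → Finset V
  | 0 => ∅
  | m + 1 => insert (f (gSet f m)) (gSet f m)

theorem gSet_mono {V : Type*} (f : Finset V → V) {m m' : ℕ} (h : m ≤ m') :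
    gSet f m ⊆ gSet f m' := by
  classical
  induction h with
  | refl => exact Finset.Subset.refl _
  | step _ ih => exact ih.trans (Finset.subset_insert _ _)

theorem greedy_n {K V : Type*} [Field K] [AddCommGroup V] [Module K V] [FiniteDimensional K V]
    (S : Set V) (h0 : ∀ x ∈ S, x ≠ 0)
    (hS : ∀ T : Set (Submodule K V), T.Finite → (∀ W ∈ T, Module.finrank K W ≤ 2) →
      ∃ x ∈ S, ∀ W ∈ T, x ∉ W) :
    ∃ X : ℕ → V, (∀ m, X m ∈ S) ∧
      ∀ W : Submodule K V, Module.finrank K W ≤ 2 → {m | X m ∈ W}.Finite := by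
  classical
  have h1 : ∀ F : Finset V, ∃ x ∈ S, ∀ a ∈ F, ∀ b ∈ F, x ∉ Submodule.span K ({a, b} : Set V) := by
    intro F
    obtain ⟨x, hx, hx2⟩ := hS ((fun p : V × V => Submodule.span K ({p.1, p.2} : Set V)) ''
      (F ×ˢ F : Finset (V × V)))
      ((F ×ˢ F).finite_toSet.image _) (by
        rintro W ⟨p, -, rfl⟩
        have h1 := finrank_span_finset_le_card (R := K) ({p.1, p.2} : Finset V)
        rw [Finset.coe_pair] at h1
        exact h1.trans Finset.card_le_two)
    exact ⟨x, hx, fun a ha b hb => hx2 _ ⟨(a, b), Finset.mem_coe.2 (Finset.mem_product.2 ⟨ha, hb⟩),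
      rfl⟩⟩
  choose f hf hf2 using h1
  refine ⟨fun m => f (gSet f m), fun m => hf _, ?_⟩
  intro W hW
  by_contra hinf
  have hinf' : {m | f (gSet f m) ∈ W}.Infinite := hinf
  have hmem : ∀ {m m' : ℕ}, m < m' → f (gSet f m) ∈ gSet f m' := by
    intro m m' h
    exact gSet_mono f (Nat.succ_le_of_lt h) (Finset.mem_insert_self _ _)
  obtain ⟨m1, hm1⟩ := hinf'.nonempty
  obtain ⟨m2, hm2, h12⟩ := hinf'.exists_gt m1
  obtain ⟨m3, hm3, h23⟩ := hinf'.exists_gt m2
  set x1 := f (gSet f m1) with hx1
  set x2 := f (gSet f m2) with hx2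
  set x3 := f (gSet f m3) with hx3
  have e2 : x2 ∉ Submodule.span K ({x1, x1} : Set V) := hf2 _ _ (hmem h12) _ (hmem h12)
  have e3 : x3 ∉ Submodule.span K ({x1, x2} : Set V) := hf2 _ _ (hmem (h12.trans h23)) _ (hmem h23)
  have hx10 : x1 ≠ 0 := h0 _ (hf _)
  have hli : LinearIndependent K ![x1, x2, x3] := by
    rw [Fintype.linearIndependent_iff]
    intro c hc
    rw [Fin.sum_univ_three] at hc
    have hc' : c 0 • x1 + c 1 • x2 + c 2 • x3 = 0 := hc
    have c2 : c 2 = 0 := by
      by_contra h
      apply e3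
      rw [Submodule.mem_span_pair]
      refine ⟨-(c 2)⁻¹ * c 0, -(c 2)⁻¹ * c 1, ?_⟩
      have h3 : c 2 • x3 = -(c 0 • x1 + c 1 • x2) := by
        rw [add_comm] at hc'
        exact eq_neg_of_add_eq_zero_left hc'
      have h4 : x3 = (c 2)⁻¹ • (c 2 • x3) := by rw [smul_smul, inv_mul_cancel₀ h, one_smul]
      rw [h4, h3]
      module
    rw [c2, zero_smul, add_zero] at hc'
    have c1 : c 1 = 0 := by
      by_contra h
      apply e2
      rw [Submodule.mem_span_pair]
      refine ⟨-(c 1)⁻¹ * c 0, 0, ?_⟩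
      have h3 : c 1 • x2 = -(c 0 • x1) := by
        rw [add_comm] at hc'
        exact eq_neg_of_add_eq_zero_left hc'
      have h4 : x2 = (c 1)⁻¹ • (c 1 • x2) := by rw [smul_smul, inv_mul_cancel₀ h, one_smul]
      rw [h4, h3]
      module
    rw [c1, zero_smul, add_zero] at hc'
    have c0 : c 0 = 0 := (smul_eq_zero.1 hc').resolve_right hx10
    intro i
    fin_cases i
    · exact c0
    · exact c1
    · exact c2
  have hspan := finrank_span_eq_card hli
  rw [Fintype.card_fin] at hspan
  have hle : Submodule.span K (Set.range ![x1, x2, x3]) ≤ W := by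
    rw [Submodule.span_le]
    rintro _ ⟨i, rfl⟩
    fin_cases i
    · exact hm1
    · exact hm2
    · exact hm3
  have := Submodule.finrank_mono hle
  omega

end Pool.Agent.Helper10.PN
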