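import Pool.Agent.Helper10.PN.SingN

/-!
# PN-FREEN: the equivariance

`e = et (X_j ∂F/∂X_i) + x_j e_i ≠ 0` has weight `1` and `gr . e = 0` (as `freeL_gr`, `freeL_we` in
`Helper74/PQ/FreeL.lean`). By `dN_cramer` there is `k` with `dN w (update t k e) ≠ 0`, `t` the basis
of the singles. Take `k' ≠ k` (`N ≥ 3`): `single_line` with `t' = update t k e` and the row `k'`
(`K k'`): the weights are `1 + (1 + 2 (N - 1)) = q` (`wa_detN` with `e k = 1` and `2` for all others;
the row `k'` is replaced by another single of weight `2`).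
-/

set_option autoImplicit false

namespace Pool.Agent.Helper10.PN

open scoped BigOperators
open MvPolynomial
open Pool.Agent.Helper8.LG (Bdd RowBdd form mon)
open Pool.Agent.Helper6.QS
open Pool.Agent.Helper74.Q8 (rr)
open Pool.Agent.Helper74.PQ

variable {Ω : Type*} [Field Ω] [CharZero Ω] {N q : ℕ} {D : Sym (Fin (N + 1)) q → Derivation ℤ Ω Ω}
  {a : Sym (Fin (N + 1)) q → Ω} {B : Subfield Ω} {x : Fin (N + 1) → Ω}

omit [CharZero Ω] in
theorem freeN_hom (h : PtN D a B x) (i j : Fin (N + 1)) :
    (X j * pderiv i (Fp a)).IsHomogeneous q := by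
  have h1 : 1 + (q - 1) = q := by
    have h3 := h.hq
    have h4 := h.hN
    omega
  have h2 := (isHomogeneous_X Ω j).mul ((fp_hom a).pderiv (i := i))
  rwa [h1] at h2

omit [CharZero Ω] in
theorem freeN_single (g : Fin (N + 1) → Ω) (i : Fin (N + 1)) (c : Ω) :
    dt g (Pi.single i c) = g i * c := by
  rw [dt, Finset.sum_eq_single i, Pi.single_eq_same]
  · intro j _ hj
    rw [Pi.single_eq_of_ne hj, mul_zero]
  · intro h
    exact absurd (Finset.mem_univ _) h

/-- `e` is orthogonal to the gradient -/
theorem freeN_gr (h : PtN D a B x) (i j : Fin (N + 1)) :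
    dt (gr a x) (et D a x (X j * pderiv i (Fp a)) + Pi.single i (x j)) = 0 := by
  rw [Pool.Agent.Helper74.Q8.dt_add', gr_et D a h.frame.dual (q_ne h) x h.ne, freeN_single,
    ev_hom q x _ (freeN_hom h i j), map_mul, eval_X]
  unfold gr
  ring

/-- the components of `e` have weight `1` -/
theorem freeN_we (h : PtN D a B x) (i j : Fin (N + 1)) {m : Fin (N + 1)} (hm : x m ≠ 0)
    (l : Fin (N + 1)) : WA D a B x (fun _ => True) m 1
      ((et D a x (X j * pderiv i (Fp a)) + Pi.single i (x j) : Fin (N + 1) → Ω) l) := by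
  rw [Pi.add_apply]
  refine WA.add ?_ ?_
  · exact wa_et h.frame (q_ne h) h.ne hm _
      (ratP_mul (ratP_X j) (fp_pderiv_rat B a h.frame.mem i)) l
  · by_cases hl : l = i
    · rw [hl, Pi.single_eq_same]
      exact WA.coord j
    · rw [Pi.single_eq_of_ne hl]
      exact WA.zero

theorem freeN_sum (k : Fin N) : (∑ i : Fin N, (if i = k then (1 : ℤ) else 2)) = 2 * N - 1 := by
  have h1 : ∀ i : Fin N, (if i = k then (1 : ℤ) else 2) = 2 - (if i = k then 1 else 0) := by
    intro i
    split_ifs <;> ring
  rw [Finset.sum_congr rfl fun i _ => h1 i, Finset.sum_sub_distrib, Finset.sum_ite_eq',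
    if_pos (Finset.mem_univ _), Finset.sum_const, Finset.card_univ, Fintype.card_fin,
    nsmul_eq_mul]
  ring

theorem free_n (h : PtN D a B x) (K : Fin N → Fin (N + 1) →₀ ℕ) (j b : Fin N → Fin (N + 1))
    (hK : Bas D a x K j b) (i j' : Fin (N + 1))
    (he : et D a x (X j' * pderiv i (Fp a)) ≠ - Pi.single i (x j')) : LnN B x := by
  obtain ⟨v, hv⟩ : ∃ v, v = et D a x (X j' * pderiv i (Fp a)) + Pi.single i (x j') := ⟨_, rfl⟩
  have hv0 : v ≠ 0 := by
    intro h0
    rw [hv] at h0
    exact he (eq_neg_of_add_eq_zero_left h0)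
  have hvg : dt (gr a x) v = 0 := by
    rw [hv]
    exact freeN_gr h i j'
  have hvw : ∀ m, x m ≠ 0 → ∀ l, WA D a B x (fun _ => True) m 1 (v l) := by
    intro m hm l
    rw [hv]
    exact freeN_we h i j' hm l
  clear hv he
  unfold Bas at hK
  obtain ⟨t, ht⟩ : ∃ t : Fin N → Fin (N + 1) → Ω, ∀ i, t i = sg D a x (K i) (j i) (b i) :=
    ⟨_, fun _ => rfl⟩
  have ht' : (fun i => sg D a x (K i) (j i) (b i)) = t := funext fun i => (ht i).symm
  rw [ht'] at hK
  have htg : ∀ i, dt (gr a x) (t i) = 0 := by
    intro i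
    rw [ht]
    exact gr_sg h _ _ _
  obtain ⟨k, hk⟩ : ∃ k, dN (et D a x (X 0 ^ q)) (Function.update t k v) ≠ 0 := by
    by_contra hcon
    push Not at hcon
    exact hv0 (dN_cramer (gr a x) (et D a x (X 0 ^ q)) (gr_neN h) t htg hK v hvg hcon)
  obtain ⟨k', hk'⟩ : ∃ k' : Fin N, k' ≠ k := by
    have h1 := h.hN
    have : Nontrivial (Fin N) := Fin.nontrivial_iff_two_le.2 (by omega)
    exact exists_ne k
  have hup : Function.update t k v k' = t k' := Function.update_of_ne hk' _ _
  refine single_line h (Function.update t k v) ?_ k' (K k') ⟨j k', b k', ?_⟩ ?_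
  · intro l
    by_cases hl : l = k
    · rw [hl, Function.update_self]
      exact hvg
    · rw [Function.update_of_ne hl]
      exact htg l
  · rw [← ht, ← hup, Function.update_eq_self]
    exact hk
  · intro j₀ b₀ m hm
    have h1 := wa_detN (D := D) (a := a) (B := B) (C := fun _ => True) hm (et D a x (X m ^ q))
      (Function.update (Function.update t k v) k' (sg D a x (K k') j₀ b₀)) 1
      (fun i => if i = k then 1 else 2) (fun l => wa_powN h hm l) (fun r l => by
        by_cases hr : r = k'
        · rw [if_neg (by rw [hr]; exact hk'), hr, Function.update_self]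
          exact wa_sgN h hm _ _ _ _
        · rw [Function.update_of_ne hr]
          by_cases hrk : r = k
          · rw [if_pos hrk, hrk, Function.update_self]
            exact hvw m hm l
          · rw [if_neg hrk, Function.update_of_ne hrk, ht]
            exact wa_sgN h hm _ _ _ _)
    rw [freeN_sum] at h1
    have h2 : (1 : ℤ) + (2 * (N : ℤ) - 1) = q := by
      have h3 := h.hq
      rw [h3]
      push_cast
      ring
    rwa [h2] at h1

end Pool.Agent.Helper10.PN
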