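import Pool.Agent.Helper10.PN.SpanN

/-!
# PN-RANKA: all maps of rank at most one

`rank_all`: `P = ∑ c_K X^K` (`c_K ∈ Ω`): the expression is quadratic in `P`; for the rational
polynomials `X^K + X^K'` and `X^K`, `X^K'` the hypothesis gives that the polarised expression
vanishes for all pairs of monomials, so it vanishes for all `P` (a double sum: symmetrise, `2 ≠ 0`,
or use `∑_(K, K') c_K c_K' (..)`).

`stuck`: linear algebra. Choose `P₀, l₀` with `t₀ = φ P₀ l₀ ≠ 0` (otherwise `u = 0` works in `h2`);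
`φ P₀ l = c l • t₀`. For `l` with `c l = 0` and any `P`: `h1` for `P₀ + s P` (coefficient of `s`, use
`s = 1, -1`, `2 ≠ 0`) gives that `φ P l` is a multiple of `t₀`. If `φ P₁ l₁ ≠ 0` for some `P₁` and
some `l₁` with `c l₁ = 0`, then all `φ P l` are multiples of `t₀`: for any `P` one of
`φ (P + s P₁) l₁`, `s = 1, 2` is not zero and a multiple of `t₀`, so all values of `φ (P + s P₁)` are
multiples of `t₀`, and so are all values of `φ P₁` (`s` large), contradicting `h2`. So
`φ P (l - c l • l₀) = 0` for all `P`, `l` (`c (l - c l • l₀) = 0` as `c l₀ = 1`).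
-/

set_option autoImplicit false

namespace Pool.Agent.Helper10.PN

open scoped BigOperators
open MvPolynomial
open Pool.Agent.Helper8.LG (Bdd RowBdd form mon)
open Pool.Agent.Helper6.QS
open Pool.Agent.Helper74.Q8 (rr)
open Pool.Agent.Helper74.PQ

private theorem RankA_par {Ω : Type*} [Field Ω] {n : ℕ} (t v : Fin n → Ω) (i₀ : Fin n) (h0 : t i₀ ≠ 0)
    (h : ∀ i j, v i * t j = v j * t i) : v = (v i₀ / t i₀) • t := by
  funext i
  rw [Pi.smul_apply, smul_eq_mul, div_mul_eq_mul_div, eq_div_iff h0]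
  exact h i i₀

theorem stuck {Ω M W : Type*} [Field Ω] [CharZero Ω] [AddCommGroup M] [Module Ω M]
    [AddCommGroup W] [Module Ω W] {n : ℕ} (φ : M →ₗ[Ω] W →ₗ[Ω] (Fin n → Ω))
    (h1 : ∀ P l l' i j, φ P l i * φ P l' j = φ P l j * φ P l' i)
    (h2 : ∀ u : Fin n → Ω, ∃ P l, ∀ c : Ω, φ P l ≠ c • u) :
    ∃ (l₀ : W) (c : W → Ω), ∀ P l, φ P l = c l • φ P l₀ := by
  classical
  obtain ⟨P₀, l₀, h3⟩ := h2 0
  have h4 : φ P₀ l₀ ≠ 0 := by
    have := h3 0
    rwa [smul_zero] at this
  obtain ⟨t₀, ht⟩ : ∃ t, t = φ P₀ l₀ := ⟨_, rfl⟩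
  obtain ⟨i₀, hi₀⟩ : ∃ i₀, t₀ i₀ ≠ 0 := by
    rw [ht]
    by_contra h5
    push Not at h5
    exact h4 (funext h5)
  have hc : ∀ l, φ P₀ l = (φ P₀ l i₀ / t₀ i₀) • t₀ := fun l => by
    refine RankA_par t₀ _ i₀ hi₀ fun i j => ?_
    rw [ht]
    exact h1 P₀ l l₀ i j
  have key : ∀ l, φ P₀ l = 0 → ∀ P, φ P l = 0 := by
    intro l₁ hl₁
    by_contra h5
    push Not at h5
    obtain ⟨P₁, hP₁⟩ := h5
    have h6 : ∀ P i j, φ P l₁ i * t₀ j = φ P l₁ j * t₀ i := by
      intro P i j
      have e1 := h1 (P₀ + P) l₁ l₀ i j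
      have e2 := h1 P l₁ l₀ i j
      simp only [map_add, LinearMap.add_apply, Pi.add_apply, hl₁, Pi.zero_apply, zero_add,
        ← ht] at e1
      linear_combination e1 - e2
    have h7 : ∀ P, φ P l₁ ≠ 0 → ∀ l, ∃ c : Ω, φ P l = c • t₀ := by
      intro P hP l
      have e1 := RankA_par t₀ _ i₀ hi₀ (h6 P)
      have e2 : φ P l₁ i₀ ≠ 0 := by
        intro h8
        rw [h8, zero_div, zero_smul] at e1
        exact hP e1
      refine ⟨φ P l i₀ / t₀ i₀, RankA_par t₀ _ i₀ hi₀ fun i j => ?_⟩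
      have e3 := h1 P l l₁ i j
      have e4 : ∀ k, φ P l₁ k = φ P l₁ i₀ / t₀ i₀ * t₀ k := fun k => by
        conv_lhs => rw [e1]
        rfl
      rw [e4 i, e4 j] at e3
      have e5 : φ P l₁ i₀ / t₀ i₀ ≠ 0 := div_ne_zero e2 hi₀
      refine mul_left_cancel₀ e5 ?_
      linear_combination e3
    obtain ⟨P, l, hPl⟩ := h2 t₀
    by_cases h8 : φ P l₁ = 0
    · obtain ⟨c, hc'⟩ := h7 (P + P₁) (by
        rw [map_add, LinearMap.add_apply, h8, zero_add]
        exact hP₁) l
      obtain ⟨c', hc''⟩ := h7 P₁ hP₁ l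
      refine hPl (c - c') ?_
      rw [map_add, LinearMap.add_apply, hc''] at hc'
      rw [sub_smul, ← hc', add_sub_cancel_right]
    · obtain ⟨c, hc'⟩ := h7 P h8 l
      exact hPl c hc'
  refine ⟨l₀, fun l => φ P₀ l i₀ / t₀ i₀, fun P l => ?_⟩
  have e1 := key (l - (φ P₀ l i₀ / t₀ i₀) • l₀) (by
    rw [map_sub, map_smul, ← ht]
    exact sub_eq_zero.2 (hc l)) P
  rw [map_sub, map_smul, sub_eq_zero] at e1
  exact e1

variable {Ω : Type*} [Field Ω] [CharZero Ω] {N q : ℕ} {D : Sym (Fin (N + 1)) q → Derivation ℤ Ω Ω}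
  {a : Sym (Fin (N + 1)) q → Ω} {B : Subfield Ω} {x : Fin (N + 1) → Ω}

theorem rank_all
    (hr : ∀ P, RatP B P → ∀ l l' : Fin (N + 1) → Ω, dt l x = 0 → dt l' x = 0 → ∀ i i',
      et D a x (P * lf l) i * et D a x (P * lf l') i' =
        et D a x (P * lf l) i' * et D a x (P * lf l') i)
    (P : MvPolynomial (Fin (N + 1)) Ω) (l l' : Fin (N + 1) → Ω) (hl : dt l x = 0)
    (hl' : dt l' x = 0) (i i' : Fin (N + 1)) :
    et D a x (P * lf l) i * et D a x (P * lf l') i' =
      et D a x (P * lf l) i' * et D a x (P * lf l') i := by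
  have hm : ∀ K : Fin (N + 1) →₀ ℕ, RatP B (monomial K (1 : Ω)) := fun K => ratP_mono K B.one_mem
  have hpol : ∀ K K' : Fin (N + 1) →₀ ℕ,
      (et D a x (monomial K 1 * lf l) i * et D a x (monomial K' 1 * lf l') i' -
        et D a x (monomial K 1 * lf l) i' * et D a x (monomial K' 1 * lf l') i) +
      (et D a x (monomial K' 1 * lf l) i * et D a x (monomial K 1 * lf l') i' -
        et D a x (monomial K' 1 * lf l) i' * et D a x (monomial K 1 * lf l') i) = 0 := by
    intro K K'
    have e1 := hr _ (ratP_add (hm K) (hm K')) l l' hl hl' i i'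
    have e2 := hr _ (hm K) l l' hl hl' i i'
    have e3 := hr _ (hm K') l l' hl hl' i i'
    simp only [add_mul, map_add, Pi.add_apply] at e1
    linear_combination e1 - e2 - e3
  have hP : ∀ (l : Fin (N + 1) → Ω) (k : Fin (N + 1)), et D a x (P * lf l) k =
      ∑ K ∈ P.support, coeff K P * et D a x (monomial K 1 * lf l) k := by
    intro l k
    have h1 : P * lf l = ∑ K ∈ P.support, coeff K P • (monomial K 1 * lf l) := by
      conv_lhs => rw [P.as_sum, Finset.sum_mul]
      refine Finset.sum_congr rfl fun K _ => ?_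
      rw [← smul_mul_assoc, smul_monomial, smul_eq_mul, mul_one]
    rw [h1, map_sum, Finset.sum_apply]
    refine Finset.sum_congr rfl fun K _ => ?_
    rw [map_smul, Pi.smul_apply, smul_eq_mul]
  have h2 : (et D a x (P * lf l) i * et D a x (P * lf l') i' -
      et D a x (P * lf l) i' * et D a x (P * lf l') i) = ∑ K ∈ P.support, ∑ K' ∈ P.support,
      coeff K P * coeff K' P *
        (et D a x (monomial K 1 * lf l) i * et D a x (monomial K' 1 * lf l') i' -
          et D a x (monomial K 1 * lf l) i' * et D a x (monomial K' 1 * lf l') i) := by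
    rw [hP l i, hP l' i', hP l i', hP l' i, Finset.sum_mul_sum, Finset.sum_mul_sum,
      ← Finset.sum_sub_distrib]
    refine Finset.sum_congr rfl fun K _ => ?_
    rw [← Finset.sum_sub_distrib]
    refine Finset.sum_congr rfl fun K' _ => ?_
    ring
  have h3 : (2 : Ω) * (et D a x (P * lf l) i * et D a x (P * lf l') i' -
      et D a x (P * lf l) i' * et D a x (P * lf l') i) = 0 := by
    rw [two_mul]
    nth_rewrite 2 [h2]
    rw [Finset.sum_comm, h2, ← Finset.sum_add_distrib]
    refine Finset.sum_eq_zero fun K _ => ?_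
    rw [← Finset.sum_add_distrib]
    refine Finset.sum_eq_zero fun K' _ => ?_
    have h4 := hpol K K'
    linear_combination coeff K P * coeff K' P * h4
  exact sub_eq_zero.1 ((mul_eq_zero.1 h3).resolve_left two_ne_zero)

/-- common kernel of codimension one -/
theorem rank_stuck (h : PtN D a B x) (K : Fin N → Fin (N + 1) →₀ ℕ) (j b : Fin N → Fin (N + 1))
    (hK : Bas D a x K j b)
    (hr : ∀ P, RatP B P → ∀ l l' : Fin (N + 1) → Ω, dt l x = 0 → dt l' x = 0 → ∀ i i',
      et D a x (P * lf l) i * et D a x (P * lf l') i' =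
        et D a x (P * lf l) i' * et D a x (P * lf l') i) :
    ∃ (l₀ : Fin (N + 1) → Ω) (c : Fin (N + 1) → Ω), dt l₀ x = 0 ∧
      ∀ (P : MvPolynomial (Fin (N + 1)) Ω) (b' : Fin (N + 1)),
        et D a x (P * lf (rr x 0 b')) = c b' • et D a x (P * lf l₀) := by
  let L : (Fin (N + 1) → Ω) → Fin (N + 1) → Ω := fun l => ∑ b', l b' • rr x 0 b'
  have hL : ∀ l, (lf (L l) : MvPolynomial (Fin (N + 1)) Ω) = ∑ b', l b' • lf (rr x 0 b') := by
    intro l
    simp only [L, lf]
    have e1 : ∀ i, (∑ b', l b' • rr x 0 b') i • (X i : MvPolynomial (Fin (N + 1)) Ω) =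
        ∑ b', l b' • (rr x 0 b' i • X i) := by
      intro i
      rw [Finset.sum_apply, Finset.sum_smul]
      refine Finset.sum_congr rfl fun b' _ => ?_
      rw [Pi.smul_apply, smul_smul, smul_eq_mul]
    rw [Finset.sum_congr rfl fun i _ => e1 i, Finset.sum_comm]
    refine Finset.sum_congr rfl fun b' _ => ?_
    rw [Finset.smul_sum]
  have hLx : ∀ l, dt (L l) x = 0 := by
    intro l
    rw [← eval_lf, hL, map_sum]
    refine Finset.sum_eq_zero fun b' _ => ?_
    rw [smul_eval, eval_lf, rr_xN, mul_zero]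
  let φ : MvPolynomial (Fin (N + 1)) Ω →ₗ[Ω] (Fin (N + 1) → Ω) →ₗ[Ω] (Fin (N + 1) → Ω) :=
    LinearMap.mk₂ Ω (fun P l => et D a x (P * lf (L l)))
      (fun P P' l => by rw [add_mul, map_add])
      (fun c P l => by rw [smul_mul_assoc, map_smul])
      (fun P l l' => by
        rw [hL, hL, hL, ← map_add, ← mul_add, ← Finset.sum_add_distrib]
        simp only [Pi.add_apply, add_smul])
      (fun c P l => by
        rw [hL, hL, ← map_smul, ← mul_smul_comm, Finset.smul_sum]
        simp only [Pi.smul_apply, smul_smul, smul_eq_mul])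
  have hφ : ∀ P l, φ P l = et D a x (P * lf (L l)) := fun _ _ => rfl
  obtain ⟨l₀, c, hc⟩ := stuck φ
    (fun P l l' i i' => rank_all hr P _ _ (hLx l) (hLx l') i i') (fun u => by
      by_contra hu
      push Not at hu
      have hN := h.hN
      have ht : ∀ i : Fin N, ∃ c : Ω, sg D a x (K i) (j i) (b i) = c • u := by
        intro i
        obtain ⟨c, hc⟩ := hu (monomial (K i) 1) (rr x (j i) (b i))
        refine ⟨c, ?_⟩
        rw [← hc, hφ, hL, ← lf_span h.one _ (rr_xN x (j i) (b i))]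
        rfl
      have hli := dN_indep _ _ hK
      obtain ⟨c0, h0⟩ := ht ⟨0, by omega⟩
      obtain ⟨c1, h1⟩ := ht ⟨1, by omega⟩
      have hne : (⟨0, by omega⟩ : Fin N) ≠ ⟨1, by omega⟩ := by
        intro he
        exact absurd (congrArg Fin.val he) (by norm_num)
      have hli2 : LinearIndependent Ω ![sg D a x (K ⟨0, by omega⟩) (j ⟨0, by omega⟩)
          (b ⟨0, by omega⟩), sg D a x (K ⟨1, by omega⟩) (j ⟨1, by omega⟩) (b ⟨1, by omega⟩)] := by
        have e1 := hli.comp ![(⟨0, by omega⟩ : Fin N), ⟨1, by omega⟩] (by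
          intro i i' hii
          fin_cases i <;> fin_cases i'
          · rfl
          · exact absurd hii hne
          · exact absurd hii.symm hne
          · rfl)
        have e2 : (fun i => sg D a x (K i) (j i) (b i)) ∘
            ![(⟨0, by omega⟩ : Fin N), ⟨1, by omega⟩] = ![sg D a x (K ⟨0, by omega⟩)
              (j ⟨0, by omega⟩) (b ⟨0, by omega⟩), sg D a x (K ⟨1, by omega⟩) (j ⟨1, by omega⟩)
              (b ⟨1, by omega⟩)] := by
          funext i
          fin_cases i <;> rfl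
        rwa [e2] at e1
      have hp := (LinearIndependent.pair_iff.1 hli2) c1 (-c0) (by
        rw [h0, h1, smul_smul, smul_smul, ← add_smul,
          show c1 * c0 + -c0 * c1 = 0 by ring, zero_smul])
      have hz := hli.ne_zero ⟨0, by omega⟩
      rw [h0, neg_eq_zero.1 hp.2, zero_smul] at hz
      exact hz rfl)
  refine ⟨L l₀, fun b' => c (Pi.single b' 1), hLx l₀, fun P b' => ?_⟩
  have h5 := hc P (Pi.single b' 1)
  have h6 : L (Pi.single b' 1) = rr x 0 b' := by
    show ∑ k, (Pi.single b' (1 : Ω) : Fin (N + 1) → Ω) k • rr x 0 k = rr x 0 b'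
    rw [Finset.sum_eq_single b']
    · rw [Pi.single_eq_same, one_smul]
    · intro k _ hk
      rw [Pi.single_eq_of_ne hk, zero_smul]
    · intro hk
      exact absurd (Finset.mem_univ _) hk
  rw [hφ, hφ, h6] at h5
  exact h5

end Pool.Agent.Helper10.PN
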