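import Pool.Agent.Helper10.PN.SpanN

/-!
# PN-RANKB: the count

`E P = (et (P X_i))_i : Fin (N + 1) → Fin (N + 1) → Ω`, linear in `P`. `k_b = rr x 0 b - c_b l₀`
satisfies `et (P lf k_b) = 0` for all `P`, so `E (Q lf k_b) = 0` for all `Q`. As
`X_b = x_b X_0 + c_b lf l₀ + lf k_b`, by induction on the multiset `K` of cardinality `n`:
`X^K - ∑_(i ≤ n) γ_i X_0^(n-i) (lf l₀)^i` lies in the ideal of the `lf k_b`. `E` only sees the part
of degree `q - 1`, so the range of `E` is spanned by the `q` vectors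
`E (X_0^(q-1-i) (lf l₀)^i)`, `i < q`: `finrank (range E) ≤ q = 2 N`. The linear map
`L y = ∑_i l₀ i • y i` satisfies `L (E P) = et (P lf l₀)`, and
`sg K j b = (x_j c_b - x_b c_j) et (X^K lf l₀)` (`sg_zero`), so the image of `range E` under `L`
contains the `N` independent vectors of `Bas` (`dN_indep`). Its kernel contains the vectors
`E (∂F/∂X_k) = (- x_i e_k)_i` (`Eqv`), `k ≤ N` (`L` of it is `- (l₀ . x) e_k = 0`), which are
independent (component `i = 0`). So `2 N + 1 ≤ finrank (range E) ≤ 2 N`, a contradiction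
(`LinearMap.finrank_range_add_finrank_ker`).
-/

set_option autoImplicit false

namespace Pool.Agent.Helper10.PN

open scoped BigOperators
open MvPolynomial
open Pool.Agent.Helper8.LG (Bdd RowBdd form mon)
open Pool.Agent.Helper49.LN (cP mo)
open Pool.Agent.Helper6.QS
open Pool.Agent.Helper74.Q8 (rr)
open Pool.Agent.Helper74.PQ

variable {Ω : Type*} [Field Ω] [CharZero Ω] {N q : ℕ} {D : Sym (Fin (N + 1)) q → Derivation ℤ Ω Ω}
  {a : Sym (Fin (N + 1)) q → Ω} {B : Subfield Ω} {x : Fin (N + 1) → Ω}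

/-- the linear map `E` -/
noncomputable def RankB_E (D : Sym (Fin (N + 1)) q → Derivation ℤ Ω Ω)
    (a : Sym (Fin (N + 1)) q → Ω) (x : Fin (N + 1) → Ω) :
    MvPolynomial (Fin (N + 1)) Ω →ₗ[Ω] (Fin (N + 1) → Fin (N + 1) → Ω) where
  toFun P i := et D a x (P * X i)
  map_add' P P' := by
    funext i
    show et D a x ((P + P') * X i) = et D a x (P * X i) + et D a x (P' * X i)
    rw [add_mul, map_add]
  map_smul' c P := by
    funext i
    show et D a x ((c • P) * X i) = c • et D a x (P * X i)
    rw [smul_mul_assoc, map_smul]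

/-- the linear map `L` -/
noncomputable def RankB_L (l : Fin (N + 1) → Ω) :
    (Fin (N + 1) → Fin (N + 1) → Ω) →ₗ[Ω] (Fin (N + 1) → Ω) where
  toFun y := ∑ i, l i • y i
  map_add' y y' := by
    rw [← Finset.sum_add_distrib]
    exact Finset.sum_congr rfl fun i _ => by rw [Pi.add_apply, smul_add]
  map_smul' c y := by
    rw [RingHom.id_apply, Finset.smul_sum]
    exact Finset.sum_congr rfl fun i _ => by rw [Pi.smul_apply, smul_comm]

theorem RankB_LE (l : Fin (N + 1) → Ω) (P : MvPolynomial (Fin (N + 1)) Ω) :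
    RankB_L l (RankB_E D a x P) = et D a x (P * lf l) := by
  show ∑ i, l i • et D a x (P * X i) = _
  rw [lf, Finset.mul_sum, map_sum]
  refine Finset.sum_congr rfl fun i _ => ?_
  rw [mul_smul_comm, map_smul]

/-- the polynomials `X_0^s l^t`, `s + t = n` -/
def RankB_G (l : Fin (N + 1) → Ω) (n : ℕ) : Set (MvPolynomial (Fin (N + 1)) Ω) :=
  {p | ∃ s t : ℕ, s + t = n ∧ p = X 0 ^ s * lf l ^ t}

/-- the ideal of the `lf k_b` -/
noncomputable def RankB_I (x l c : Fin (N + 1) → Ω) : Ideal (MvPolynomial (Fin (N + 1)) Ω) :=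
  Ideal.span (Set.range fun b => lf (rr x 0 b) - c b • lf l)

theorem RankB_I_zero (l c : Fin (N + 1) → Ω)
    (hc : ∀ (P : MvPolynomial (Fin (N + 1)) Ω) (b' : Fin (N + 1)),
      et D a x (P * lf (rr x 0 b')) = c b' • et D a x (P * lf l))
    (f : MvPolynomial (Fin (N + 1)) Ω) (hf : f ∈ RankB_I x l c) : RankB_E D a x f = 0 := by
  obtain ⟨P, h2⟩ := Ideal.mem_span_range_iff_exists_fun.1 hf
  rw [← h2, map_sum]
  refine Finset.sum_eq_zero fun b _ => ?_
  funext i
  show et D a x (P b * (lf (rr x 0 b) - c b • lf l) * X i) = 0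
  have h3 : (P b * (lf (rr x 0 b) - c b • lf l) * X i : MvPolynomial (Fin (N + 1)) Ω) =
      (P b * X i) * lf (rr x 0 b) - c b • ((P b * X i) * lf l) := by
    rw [smul_eq_C_mul, smul_eq_C_mul]
    ring
  rw [h3, map_sub, map_smul, hc, sub_self]

theorem RankB_mo (hx : x 0 = 1) (l c : Fin (N + 1) → Ω) (M : Multiset (Fin (N + 1))) :
    mo Ω M ∈ Submodule.span Ω (RankB_G l (Multiset.card M)) ⊔
      (RankB_I x l c).restrictScalars Ω := by
  induction M using Multiset.induction_on with
  | empty =>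
    refine Submodule.mem_sup_left (Submodule.subset_span ⟨0, 0, ?_, ?_⟩)
    · rw [Multiset.card_zero]
    · simp [mo]
  | cons b M ih =>
    have h1 : mo Ω (b ::ₘ M) = X b * mo Ω M := by
      rw [mo, mo, Multiset.map_cons, Multiset.prod_cons]
    rw [h1, Multiset.card_cons]
    obtain ⟨w, hw, ι, hι, hwi⟩ := Submodule.mem_sup.1 ih
    rw [← hwi, mul_add]
    refine add_mem ?_ (Submodule.mem_sup_right (Ideal.mul_mem_left _ _ hι))
    clear hwi
    induction hw using Submodule.span_induction with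
    | mem p hp =>
      obtain ⟨s, t, hst, rfl⟩ := hp
      have h2 : (X b * (X 0 ^ s * lf l ^ t) : MvPolynomial (Fin (N + 1)) Ω) =
          x b • (X 0 ^ (s + 1) * lf l ^ t) + c b • (X 0 ^ s * lf l ^ (t + 1)) +
            (X 0 ^ s * lf l ^ t) * (lf (rr x 0 b) - c b • lf l) := by
        rw [lf_rrN, hx]
        simp only [smul_eq_C_mul, C_1]
        ring
      rw [h2]
      refine add_mem (Submodule.mem_sup_left (add_mem ?_ ?_)) (Submodule.mem_sup_right ?_)
      · exact Submodule.smul_mem _ _ (Submodule.subset_span ⟨s + 1, t, by omega, rfl⟩)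
      · exact Submodule.smul_mem _ _ (Submodule.subset_span ⟨s, t + 1, by omega, rfl⟩)
      · exact Ideal.mul_mem_left _ _ (Ideal.subset_span ⟨b, rfl⟩)
    | zero =>
      rw [mul_zero]
      exact zero_mem _
    | add p p' _ _ hp hp' =>
      rw [mul_add]
      exact add_mem hp hp'
    | smul r p _ hp =>
      rw [mul_smul_comm]
      exact Submodule.smul_mem _ _ hp

theorem RankB_range (hx : x 0 = 1) (n : ℕ) (hn : n + 1 = q) (l c : Fin (N + 1) → Ω)
    (hc : ∀ (P : MvPolynomial (Fin (N + 1)) Ω) (b' : Fin (N + 1)),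
      et D a x (P * lf (rr x 0 b')) = c b' • et D a x (P * lf l)) :
    Module.finrank Ω (LinearMap.range (RankB_E D a x)) ≤ q := by
  have h0 : LinearMap.range (RankB_E D a x) ≤ Submodule.span Ω (Set.range fun i : Fin q =>
      RankB_E D a x (X 0 ^ (n - (i : ℕ)) * lf l ^ (i : ℕ))) := by
    rintro _ ⟨P, rfl⟩
    have h1 : RankB_E D a x P = RankB_E D a x (homogeneousComponent n P) := by
      funext i
      show et D a x (P * X i) = et D a x (homogeneousComponent n P * X i)
      exact ev_cP_part (Ω := Ω)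
        (fun J l => D J (x l) - (q : Ω)⁻¹ * (D J (form a x) / form a x) * x l)
        n 1 hn P (X i) (isHomogeneous_X Ω i)
    rw [h1, Pool.Agent.Helper49.LN.mo_span (homogeneousComponent n P), map_sum]
    refine Submodule.sum_mem _ fun m hm => ?_
    rw [map_smul]
    refine Submodule.smul_mem _ _ ?_
    have hcd : Multiset.card (Finsupp.toMultiset m) = n := by
      rw [← Pool.Agent.Helper49.LN.toFinsupp_degree, Finsupp.toMultiset_toFinsupp]
      by_contra hne
      exact (mem_support_iff.1 hm) ((homogeneousComponent_isHomogeneous n P).coeff_eq_zero hne)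
    have h2 := RankB_mo hx l c (Finsupp.toMultiset m)
    rw [hcd] at h2
    obtain ⟨w, hw, ι, hι, hwi⟩ := Submodule.mem_sup.1 h2
    rw [← hwi, map_add, RankB_I_zero l c hc ι hι, add_zero]
    clear hwi h2 hcd hm
    induction hw using Submodule.span_induction with
    | mem p hp =>
      obtain ⟨s, t, hst, rfl⟩ := hp
      refine Submodule.subset_span ⟨⟨t, by omega⟩, ?_⟩
      have hs : n - t = s := by omega
      show RankB_E D a x (X 0 ^ (n - t) * lf l ^ t) = _
      rw [hs]
    | zero =>
      rw [map_zero]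
      exact zero_mem _
    | add p p' _ _ hp hp' =>
      rw [map_add]
      exact add_mem hp hp'
    | smul r p _ hp =>
      rw [map_smul]
      exact Submodule.smul_mem _ _ hp
  refine (Submodule.finrank_mono h0).trans ?_
  refine (finrank_range_le_card _).trans ?_
  rw [Fintype.card_fin]

theorem rank_count (h : PtN D a B x) (K : Fin N → Fin (N + 1) →₀ ℕ) (j b : Fin N → Fin (N + 1))
    (hK : Bas D a x K j b) (hE : Eqv D a x) (l₀ c : Fin (N + 1) → Ω) (hl : dt l₀ x = 0)
    (hc : ∀ (P : MvPolynomial (Fin (N + 1)) Ω) (b' : Fin (N + 1)),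
      et D a x (P * lf (rr x 0 b')) = c b' • et D a x (P * lf l₀)) : False := by
  have hN := h.hN
  have hq := h.hq
  have h1 := RankB_range (D := D) (a := a) h.one (q - 1) (by omega) l₀ c hc
  obtain ⟨Λ, hΛ⟩ : ∃ Λ : LinearMap.range (RankB_E D a x) →ₗ[Ω] (Fin (N + 1) → Ω),
      ∀ y, Λ y = RankB_L l₀ y.1 := ⟨(RankB_L l₀).domRestrict _, fun _ => rfl⟩
  have h2 := LinearMap.finrank_range_add_finrank_ker Λ
  -- the range
  have h3 : N ≤ Module.finrank Ω (LinearMap.range Λ) := by
    have hmem : ∀ i : Fin N, sg D a x (K i) (j i) (b i) ∈ LinearMap.range Λ := by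
      intro i
      refine ⟨⟨RankB_E D a x ((x (j i) * c (b i) - x (b i) * c (j i)) • monomial (K i) 1),
        ⟨_, rfl⟩⟩, ?_⟩
      rw [hΛ]
      show RankB_L l₀ (RankB_E D a x _) = _
      rw [RankB_LE, sg_zero h.one, sg, sg, hc, hc, smul_mul_assoc, map_smul, smul_smul,
        smul_smul, sub_smul]
    have hli : LinearIndependent Ω (fun i : Fin N =>
        (⟨sg D a x (K i) (j i) (b i), hmem i⟩ : LinearMap.range Λ)) := by
      refine LinearIndependent.of_comp (LinearMap.range Λ).subtype ?_
      exact dN_indep _ _ hK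
    have h4 := hli.fintype_card_le_finrank
    rwa [Fintype.card_fin] at h4
  -- the kernel
  have h5 : N + 1 ≤ Module.finrank Ω (LinearMap.ker Λ) := by
    have hEk : ∀ k i, RankB_E D a x (pderiv k (Fp a)) i = - Pi.single k (x i) := by
      intro k i
      show et D a x (pderiv k (Fp a) * X i) = _
      rw [mul_comm]
      exact hE k i
    have hmem : ∀ k : Fin (N + 1), (⟨RankB_E D a x (pderiv k (Fp a)), ⟨_, rfl⟩⟩ :
        LinearMap.range (RankB_E D a x)) ∈ LinearMap.ker Λ := by
      intro k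
      rw [LinearMap.mem_ker, hΛ]
      show ∑ i, l₀ i • RankB_E D a x (pderiv k (Fp a)) i = 0
      have h6 : ∀ i ∈ Finset.univ, l₀ i • RankB_E D a x (pderiv k (Fp a)) i =
          -(Pi.single k (l₀ i * x i) : Fin (N + 1) → Ω) := by
        intro i _
        rw [hEk, smul_neg, ← Pi.single_smul, smul_eq_mul]
      rw [Finset.sum_congr rfl h6, Finset.sum_neg_distrib, neg_eq_zero]
      funext m
      rw [Finset.sum_apply, Pi.zero_apply]
      by_cases hk : m = k
      · subst hk
        simp only [Pi.single_eq_same]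
        exact hl
      · exact Finset.sum_eq_zero fun j _ => Pi.single_eq_of_ne hk _
    have hli : LinearIndependent Ω (fun k : Fin (N + 1) =>
        (⟨⟨RankB_E D a x (pderiv k (Fp a)), ⟨_, rfl⟩⟩, hmem k⟩ : LinearMap.ker Λ)) := by
      have h7 : LinearIndependent Ω (fun k : Fin (N + 1) =>
          (- Pi.single k (1 : Ω) : Fin (N + 1) → Ω)) := by
        rw [Fintype.linearIndependent_iff]
        intro g hg k
        have h8 := congrFun hg k
        rw [Finset.sum_apply, Finset.sum_eq_single k] at h8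
        · simpa using h8
        · intro k' _ hk'
          simp [Pi.single_eq_of_ne (Ne.symm hk')]
        · intro h9
          exact absurd (Finset.mem_univ _) h9
      refine LinearIndependent.of_comp (LinearMap.proj (R := Ω) (φ := fun _ : Fin (N + 1) =>
        Fin (N + 1) → Ω) 0 ∘ₗ (LinearMap.range (RankB_E D a x)).subtype ∘ₗ
        (LinearMap.ker Λ).subtype) ?_
      have h8 : (⇑(LinearMap.proj (R := Ω) (φ := fun _ : Fin (N + 1) => Fin (N + 1) → Ω) 0 ∘ₗ
          (LinearMap.range (RankB_E D a x)).subtype ∘ₗ (LinearMap.ker Λ).subtype) ∘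
          fun k : Fin (N + 1) => (⟨⟨RankB_E D a x (pderiv k (Fp a)), ⟨_, rfl⟩⟩, hmem k⟩ :
            LinearMap.ker Λ)) = fun k => (- Pi.single k (1 : Ω) : Fin (N + 1) → Ω) := by
        funext k
        show RankB_E D a x (pderiv k (Fp a)) 0 = _
        rw [hEk, h.one]
      rw [h8]
      exact h7
    have h4 := hli.fintype_card_le_finrank
    rwa [Fintype.card_fin] at h4
  omega

end Pool.Agent.Helper10.PN
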