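import Pool.Agent.Helper10.PN.OntoN
import Pool.Agent.Helper10.PN.FreeN
import Pool.Agent.Helper10.PN.BlockN
import Pool.Agent.Helper10.PN.RankA
import Pool.Agent.Helper10.PN.RankB

/-!
# PN-KEYN: the key statement, assembly
-/

set_option autoImplicit false

namespace Pool.Agent.Helper10.PN

open scoped BigOperators
open MvPolynomial
open Pool.Agent.Helper6.QS
open Pool.Agent.Helper74.PQ

universe u

theorem keyN (N q : ℕ) : KeyN.{u} N q := by
  intro Ω _ _ D a B x h
  rcases onto_n h with h1 | ⟨K, j, b, hK⟩
  · exact lnN_of_mem (by have := h.hN; omega) h.one h1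
  by_cases hE : Eqv D a x
  swap
  · unfold Eqv at hE
    push Not at hE
    obtain ⟨i, j', hij⟩ := hE
    exact free_n h K j b hK i j' hij
  by_contra hcon
  have hr : ∀ P, RatP B P → ∀ l l' : Fin (N + 1) → Ω, dt l x = 0 → dt l' x = 0 → ∀ i i',
      et D a x (P * lf l) i * et D a x (P * lf l') i' =
        et D a x (P * lf l) i' * et D a x (P * lf l') i := by
    intro P hP l l' hl hl' i i'
    by_contra hne
    exact hcon (block_n h K j b hK P hP l l' hl hl' i i' hne)
  obtain ⟨l₀, c, hl, hc⟩ := rank_stuck h K j b hK hr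
  exact rank_count h K j b hK hE l₀ c hl hc

end Pool.Agent.Helper10.PN
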