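import Pool.Agent.Helper10.PN.UltraN
import Pool.Agent.Helper10.PN.GreedyN
import Pool.Agent.Helper10.PN.KeyN
import Pool.Agent.Helper10.PQ.CoverL
import Pool.Agent.Helper10.LN.ArithInput

/-!
# PN-COVERN: the integral points lie on finitely many lines

`cover_zeroN`: otherwise `greedy_n` gives a sequence of integral points with finitely many members
on each line, which contradicts `eng_n`. `coverN_zero`: the polynomial form for `i₀ = 0` (`reduce`);
`coverN`: permute the variables. `finN`: the lines with infinitely many integral points meet the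
hypersurface in at most two points (`twoZeros_of_infinite`).
-/

set_option autoImplicit false

namespace Pool.Agent.Helper10.PN

open scoped BigOperators
open MvPolynomial
open Pool.Agent.Helper8.LG
open Pool.Agent.Helper74.PQ
open Pool.Agent.Helper10.PQ (adjoin_fg)
open Pool.Agent.Helper10.LN
open Pool.Agent.Helper10.LB (fa_adjoin_fg)

universe u v

theorem cover_zeroN {N q : ℕ} (hN : 3 ≤ N) (hq : q = 2 * N) (hK : KeyN.{u} N q) {k : Type v}
    {L : Type u} [Field k] [Field L] [CharZero L] [Algebra k L] (a : Sym (Fin (N + 1)) q → L)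
    (hind : AlgebraicIndependent k a)
    (hfin : FiniteDimensional (IntermediateField.adjoin k (Set.range a)) L)
    (D : Sym (Fin (N + 1)) q → Derivation ℤ L L) (hD : ∀ I J, D J (a I) = if I = J then 1 else 0)
    (hDk : ∀ J (c : k), D J (algebraMap k L c) = 0) (A : Subalgebra k L) (hA : A.FG) :
    ∃ T : Set (Submodule L (Fin (N + 1) → L)), T.Finite ∧ (∀ W ∈ T, Module.finrank L W ≤ 2) ∧
      ∀ y : Fin (N + 1) → L, y 0 = 1 → form a y ≠ 0 →
        (∀ J : Sym (Fin (N + 1)) q, mon y J / form a y ∈ A) → ∃ W ∈ T, y ∈ W := by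
  classical
  by_contra hcon
  push Not at hcon
  obtain ⟨X, hX, hline⟩ := greedy_n (K := L) {y : Fin (N + 1) → L | y 0 = 1 ∧ form a y ≠ 0 ∧
    ∀ J : Sym (Fin (N + 1)) q, mon y J / form a y ∈ A} (by
      rintro y ⟨hy, -, -⟩ rfl
      exact zero_ne_one hy) (by
      intro T hT hT2
      obtain ⟨y, h0, h1, h2, h3⟩ := hcon T hT hT2
      exact ⟨y, ⟨h0, h1, h2⟩, h3⟩)
  exact eng_n hN hq hK a hind hfin D hD hDk A hA X (fun m => (hX m).1) (fun m => (hX m).2.1)
    (fun m => (hX m).2.2) hline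

/-- the case `i₀ = 0` -/
theorem coverN_zero {N q : ℕ} (hN : 3 ≤ N) (hq : q = 2 * N) (hK : KeyN.{u} N q) {k₀ : Type v}
    {M : Type u} [Field k₀] [Field M] [CharZero M] [Algebra k₀ M]
    (hfg : (⊤ : IntermediateField k₀ M).FG) (F : MvPolynomial (Fin (N + 1)) M)
    (hF : F.IsHomogeneous q)
    (hcoef : ((N + q).choose N : Cardinal) ≤
      Algebra.trdeg k₀ (IntermediateField.adjoin k₀ {z | ∃ J, z = coeff J F}))
    (A : Subalgebra k₀ M) (hA : A.FG) :
    ∃ T : Set (Submodule M (Fin (N + 1) → M)), T.Finite ∧ (∀ W ∈ T, Module.finrank M W ≤ 2) ∧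
      ∀ y : Fin (N + 1) → M, y 0 = 1 → eval y F ≠ 0 →
        (∀ J : Sym (Fin (N + 1)) q, mon y J / eval y F ∈ A) → ∃ W ∈ T, y ∈ W := by
  classical
  have e1 : ({z | ∃ J, z = coeff J F} : Set M) = {z | ∃ (_ : Fin 1) (J : Fin (N + 1) →₀ ℕ),
      z = coeff J F} := by
    ext z
    constructor
    · intro h
      exact ⟨0, h⟩
    · rintro ⟨-, h⟩
      exact h
  have hc : (Fintype.card (Ix (Fin (N + 1)) fun _ : Fin 1 => q) : Cardinal) ≤ Algebra.trdeg k₀
      (IntermediateField.adjoin k₀ (Set.range fun p : Ix (Fin (N + 1)) fun _ : Fin 1 => q =>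
        cf q F p.2)) + (0 : ℕ) := by
    have h1 := Pool.Agent.Helper8.LV.adjoin_poly k₀ (fun _ : Fin 1 => q) (fun _ => F)
      (fun _ => hF)
    rw [card_Ix, ← h1, Fin.sum_univ_one, ← e1, Nat.cast_zero, add_zero]
    exact hcoef
  obtain ⟨T, k, hT, hind, hfin, D, θ, hD, hDk⟩ := reduce hfg (fun _ : Fin 1 => q)
    (fun _ => cf q F) 0 hc
  have hall : ∀ p : Ix (Fin (N + 1)) fun _ : Fin 1 => q, p ∈ T := by
    intro p
    by_contra hp
    have h1 : Fintype.card {p : Ix (Fin (N + 1)) (fun _ : Fin 1 => q) // p ∉ T} = 0 := by omega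
    rw [Fintype.card_eq_zero_iff] at h1
    exact h1.false ⟨p, hp⟩
  have hempty : IsEmpty {p : Ix (Fin (N + 1)) (fun _ : Fin 1 => q) // p ∉ T} :=
    ⟨fun p => p.2 (hall p.1)⟩
  have hinj : Function.Injective
      (fun J : Sym (Fin (N + 1)) q => (⟨⟨0, J⟩, hall _⟩ : T)) := by
    intro J J' h
    have h1 := congrArg (fun p : T => p.1) h
    simp only [Sigma.mk.injEq, heq_eq_eq, true_and] at h1
    exact h1
  have hind1 := hind.comp (fun J : Sym (Fin (N + 1)) q => (⟨⟨0, J⟩, hall _⟩ : T)) hinj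
  have hfun : ((fun p : T => cf q F p.1.2) ∘ fun J : Sym (Fin (N + 1)) q =>
      (⟨⟨0, J⟩, hall _⟩ : T)) = cf q F := rfl
  have hind' : AlgebraicIndependent k (cf q F) := by
    rw [← hfun]
    exact hind1
  have hrange : (Set.range fun p : T => cf q F p.1.2) = Set.range (cf q F) := by
    ext z
    constructor
    · rintro ⟨p, rfl⟩
      exact ⟨p.1.2, rfl⟩
    · rintro ⟨J, rfl⟩
      exact ⟨⟨⟨0, J⟩, hall _⟩, rfl⟩
  rw [hrange] at hfin
  have hD' : ∀ I J : Sym (Fin (N + 1)) q, D ⟨0, J⟩ (cf q F I) = if I = J then 1 else 0 := by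
    intro I J
    have h1 := hD ⟨0, J⟩ ⟨0, I⟩
    rw [Fintype.sum_empty, sub_zero] at h1
    rw [h1]
    refine if_congr ?_ rfl rfl
    constructor
    · intro h
      simp only [Sigma.mk.injEq, heq_eq_eq, true_and] at h
      exact h.symm
    · intro h
      rw [h]
  obtain ⟨T', hT0, hT1, hT2⟩ := cover_zeroN hN hq hK (cf q F) hind' hfin
    (fun J => D ⟨0, J⟩) hD' (fun J c => hDk _ c) (Algebra.adjoin k (A : Set M)) (adjoin_fg k A hA)
  refine ⟨T', hT0, hT1, ?_⟩
  intro y hy0 hyF hyA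
  have hform : form (cf q F) y = eval y F := form_cf F hF y
  exact hT2 y hy0 (by rw [hform]; exact hyF) (fun J => by
    rw [hform]
    exact Algebra.subset_adjoin (hyA J))

/-- **The integral points lie on finitely many lines.** -/
theorem coverN {N q : ℕ} (hN : 3 ≤ N) (hq : q = 2 * N) {k₀ : Type v}
    {M : Type u} [Field k₀] [Field M] [CharZero M] [Algebra k₀ M]
    (hfg : (⊤ : IntermediateField k₀ M).FG) (F : MvPolynomial (Fin (N + 1)) M)
    (hF : F.IsHomogeneous q)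
    (hcoef : ((N + q).choose N : Cardinal) ≤
      Algebra.trdeg k₀ (IntermediateField.adjoin k₀ {z | ∃ J, z = coeff J F}))
    (A : Subalgebra k₀ M) (hA : A.FG) (i₀ : Fin (N + 1)) :
    ∃ T : Set (Submodule M (Fin (N + 1) → M)), T.Finite ∧ (∀ W ∈ T, Module.finrank M W ≤ 2) ∧
      ∀ y : Fin (N + 1) → M, y i₀ = 1 → eval y F ≠ 0 →
        (∀ J : Sym (Fin (N + 1)) q, mon y J / eval y F ∈ A) → ∃ W ∈ T, y ∈ W := by
  classical
  set e : Fin (N + 1) → Fin (N + 1) := fun i => Equiv.swap 0 i₀ i with he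
  have hinj : Function.Injective e := (Equiv.swap 0 i₀).injective
  have hee : e ∘ e = id := by
    funext i
    exact Equiv.swap_apply_self 0 i₀ i
  have hset : ({z | ∃ J, z = coeff J F} : Set M) = {z | ∃ J, z = coeff J (rename e F)} := by
    refine Set.Subset.antisymm (Pool.Agent.Helper6.QS.finKey_coeff e hinj F) ?_
    have h1 := Pool.Agent.Helper6.QS.finKey_coeff e hinj (rename e F)
    rw [rename_rename, hee, rename_id_apply] at h1
    exact h1
  rw [hset] at hcoef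
  obtain ⟨T, hT0, hT1, hT2⟩ := coverN_zero hN hq (keyN N q) hfg (rename e F)
    (hF.rename_isHomogeneous) hcoef A hA
  set φ : (Fin (N + 1) → M) ≃ₗ[M] (Fin (N + 1) → M) :=
    LinearEquiv.funCongrLeft M M (Equiv.swap 0 i₀) with hφ
  have hφe : ∀ y, φ y = y ∘ e := fun y => rfl
  refine ⟨(fun W => W.map (φ : (Fin (N + 1) → M) →ₗ[M] (Fin (N + 1) → M))) '' T, hT0.image _,
    ?_, ?_⟩
  · rintro _ ⟨W, hW, rfl⟩
    exact (Submodule.finrank_map_le _ _).trans (hT1 W hW)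
  · intro y hy hyF hyA
    have h0 : (y ∘ e) 0 = 1 := by
      change y (e 0) = 1
      have h3 : e 0 = i₀ := Equiv.swap_apply_left 0 i₀
      rw [h3]
      exact hy
    have h1 : eval (y ∘ e) (rename e F) = eval y F := by
      rw [eval_rename, Function.comp_assoc, hee, Function.comp_id]
    obtain ⟨W, hW, hyW⟩ := hT2 (y ∘ e) h0 (by rw [h1]; exact hyF) (fun J => by
      rw [h1]
      have h2 : mon (y ∘ e) J = mon y (J.map e) := by
        unfold mon
        rw [Sym.coe_map, Multiset.map_map]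
      rw [h2]
      exact hyA _)
    refine ⟨_, ⟨W, hW, rfl⟩, ?_⟩
    refine ⟨y ∘ e, hyW, ?_⟩
    show φ (y ∘ e) = y
    rw [hφe, Function.comp_assoc, hee, Function.comp_id]

/-- **The integral points of the complement of a generic hypersurface of degree `2 N`.** -/
theorem finN {N q : ℕ} (hN : 3 ≤ N) (hq : q = 2 * N) {k₀ : Type v} {M : Type u} [Field k₀]
    [Field M] [CharZero M] [Algebra k₀ M] (hfg : (⊤ : IntermediateField k₀ M).FG)
    (F : MvPolynomial (Fin (N + 1)) M) (hF : F.IsHomogeneous q)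
    (hcoef : ((N + q).choose N : Cardinal) ≤
      Algebra.trdeg k₀ (IntermediateField.adjoin k₀ {z | ∃ J, z = coeff J F}))
    (A : Subalgebra ℤ M) (hA : A.FG) :
    ∃ Λ' : Set (Submodule M (Fin (N + 1) → M)), Λ'.Finite ∧
      (∀ W' ∈ Λ', Module.finrank M W' ≤ 2 ∧
        TwoZeros (fun _ : Fin 1 => F) Finset.univ W') ∧
      ∀ i₀ : Fin (N + 1), {y : Fin (N + 1) → M | y i₀ = 1 ∧ (∀ W' ∈ Λ', y ∉ W') ∧ eval y F ≠ 0 ∧
        ∀ J : Sym (Fin (N + 1)) q, mon y J / eval y F ∈ A}.Finite := by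
  classical
  have hT := fun i₀ => coverN hN hq hfg F hF hcoef (Algebra.adjoin k₀ (A : Set M))
    (fa_adjoin_fg A hA) i₀
  choose T hTf hT2 hTc using hT
  obtain ⟨S, hS⟩ : ∃ S : Submodule M (Fin (N + 1) → M) → Fin (N + 1) → Set (Fin (N + 1) → M),
      S = fun W' i₀ => {y : Fin (N + 1) → M | y i₀ = 1 ∧ y ∈ W' ∧
        ∀ i ∈ (Finset.univ : Finset (Fin 1)), eval y ((fun _ : Fin 1 => F) i) ≠ 0 ∧
          ∀ J : Sym (Fin (N + 1)) ((fun _ : Fin 1 => q) i),
            mon y J / eval y ((fun _ : Fin 1 => F) i) ∈ A} := ⟨_, rfl⟩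
  obtain ⟨Λ₀, hΛ₀⟩ : ∃ Λ₀ : Set (Submodule M (Fin (N + 1) → M)), Λ₀ = ⋃ i₀, T i₀ := ⟨_, rfl⟩
  have hΛ₀f : Λ₀.Finite := by
    rw [hΛ₀]
    exact Set.finite_iUnion fun i₀ => hTf i₀
  have hΛ₀2 : ∀ W ∈ Λ₀, Module.finrank M W ≤ 2 := by
    intro W hW
    rw [hΛ₀] at hW
    obtain ⟨i₀, hW⟩ := Set.mem_iUnion.1 hW
    exact hT2 i₀ W hW
  refine ⟨{W' ∈ Λ₀ | ∃ i₀, (S W' i₀).Infinite}, hΛ₀f.subset fun W' h => h.1, ?_, ?_⟩
  · rintro W' ⟨hW', i₀, hinf⟩
    refine ⟨hΛ₀2 W' hW', ?_⟩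
    rw [hS] at hinf
    exact twoZeros_of_infinite (fun _ : Fin 1 => q) (fun _ : Fin 1 => F) (fun _ => hF)
      Finset.univ A hA W' (hΛ₀2 W' hW') i₀ hinf
  · intro i₀
    have h1 : (⋃ W' ∈ {W' ∈ Λ₀ | (S W' i₀).Finite}, S W' i₀).Finite :=
      Set.Finite.biUnion (hΛ₀f.subset fun W' h => h.1) fun W' h => h.2
    refine h1.subset ?_
    rintro y ⟨hy1, hyΛ, hyF, hyA⟩
    obtain ⟨W', hW', hyW⟩ := hTc i₀ y hy1 hyF fun J => Algebra.subset_adjoin (hyA J)
    have hW0 : W' ∈ Λ₀ := by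
      rw [hΛ₀]
      exact Set.mem_iUnion.2 ⟨i₀, hW'⟩
    have h3 : (S W' i₀).Finite := by
      by_contra hinf
      exact hyΛ W' ⟨hW0, i₀, hinf⟩ hyW
    refine Set.mem_biUnion (x := W') ⟨hW0, h3⟩ ?_
    rw [hS]
    exact ⟨hy1, hyW, fun _ _ => ⟨hyF, hyA⟩⟩

end Pool.Agent.Helper10.PN
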