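import Pool.Agent.Helper74.PQ.Wt
import Pool.Agent.Helper74.PQ.NormL
import Pool.Agent.Helper74.PQ.RatL

/-!
# PN: the complement of a generic hypersurface of degree `q = 2 N` in `P^N`, `N ≥ 3`

The definitions `LFrame`, `WA`, `et`, `Fp`, `gr`, `Eqv` are those of `Helper74/PQ/Defs.lean`.
`q = 2 N` and `3 ≤ N` are fields of `PtN`; keep `N` and `q` variables.

`dN z t`: the determinant with the rows `z`, `t 0`, .., `t (N - 1)`. `sg K j b`: the vector
`et (X^K (x_j X_b - x_b X_j))` (a single), orthogonal to the gradient `gr`.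

Weights: `et f` (`f` rational) and the coordinates `1`, `sg` `2`, unit vectors `0`, and
`et (X_0^q)` `1 - q` (`et (X_m^q) / x_m^q` modulo the forms vanishing at `x`).
-/

set_option autoImplicit false

namespace Pool.Agent.Helper10.PN

open scoped BigOperators
open MvPolynomial
open Pool.Agent.Helper8.LG (Bdd RowBdd form mon)
open Pool.Agent.Helper6.QS
open Pool.Agent.Helper74.Q8 (rr)
open Pool.Agent.Helper74.PQ (LFrame WA et Fp gr Eqv)

section

variable {Ω : Type*} [Field Ω] {N q : ℕ}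

/-- the point `x` -/
structure PtN (D : Sym (Fin (N + 1)) q → Derivation ℤ Ω Ω) (a : Sym (Fin (N + 1)) q → Ω)
    (B : Subfield Ω) (x : Fin (N + 1) → Ω) : Prop where
  hN : 3 ≤ N
  hq : q = 2 * N
  frame : LFrame D a B x
  one : x 0 = 1
  ne : form a x ≠ 0

/-- there is a rational line through `x` -/
def LnN (B : Subfield Ω) (x : Fin (N + 1) → Ω) : Prop :=
  ∃ u v : Fin (N + 1) → Ω, (∀ i, u i ∈ B) ∧ (∀ i, v i ∈ B) ∧
    (∃ b b', u b * v b' - u b' * v b ≠ 0) ∧ ∃ s t : Ω, ∀ l, x l = s * u l + t * v l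

/-- the determinant with the rows `z`, `t 0`, .., `t (N - 1)` -/
noncomputable def dN (z : Fin (N + 1) → Ω) (t : Fin N → Fin (N + 1) → Ω) : Ω :=
  Matrix.det (Matrix.of (Fin.cons z t : Fin (N + 1) → Fin (N + 1) → Ω))

/-- `et (X^K (x_j X_b - x_b X_j))` -/
noncomputable def sg (D : Sym (Fin (N + 1)) q → Derivation ℤ Ω Ω) (a : Sym (Fin (N + 1)) q → Ω)
    (x : Fin (N + 1) → Ω) (K : Fin (N + 1) →₀ ℕ) (j b : Fin (N + 1)) : Fin (N + 1) → Ω :=
  et D a x (monomial K 1 * lf (rr x j b))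

/-- the vectors `sg (K i) (j i) (b i)` are a basis of the space orthogonal to the gradient -/
def Bas (D : Sym (Fin (N + 1)) q → Derivation ℤ Ω Ω) (a : Sym (Fin (N + 1)) q → Ω)
    (x : Fin (N + 1) → Ω) (K : Fin N → Fin (N + 1) →₀ ℕ) (j b : Fin N → Fin (N + 1)) : Prop :=
  dN (et D a x (X 0 ^ q)) (fun i => sg D a x (K i) (j i) (b i)) ≠ 0

end

universe u

/-- **The key statement**: there is a rational line through the point. -/
def KeyN (N q : ℕ) : Prop :=
  ∀ (Ω : Type u) [Field Ω] [CharZero Ω] (D : Sym (Fin (N + 1)) q → Derivation ℤ Ω Ω)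
    (a : Sym (Fin (N + 1)) q → Ω) (B : Subfield Ω) (x : Fin (N + 1) → Ω), PtN D a B x →
    LnN B x

end Pool.Agent.Helper10.PN
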