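import Pool.Agent.Helper10.PN.Defs

/-!
# PN-DETN: the determinant `dN`

`Matrix.detRowAlternating` is multilinear (`MultilinearMap.cons_add`, `cons_smul`,
`Fin.cons_update` for the rows of `t`). `dN_perp`: `N + 1` vectors orthogonal to `g ≠ 0` are
dependent (`Matrix.exists_mulVec_eq_zero_iff`, as in `gr_det` of `Helper74/PQ/SpanL.lean`).
`dN_cramer`: `A` the matrix with rows `w, t`; `Aᵀ *ᵥ cramer Aᵀ e = det A • e`
(`Matrix.mulVec_cramer`, `Matrix.cramer_transpose_apply`: the components of `cramer Aᵀ e` are the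
determinants with one row replaced by `e`; the row `w` replaced by `e` gives `0` by `dN_perp`).
`dN_span`: the same identity divided by `det A`. `dN_unit`: `w_k ≠ 0`, take the unit vectors
`e_(k.succAbove i)` (or any argument with a basis: the unit vectors span).
-/

set_option autoImplicit false

namespace Pool.Agent.Helper10.PN

open scoped BigOperators
open Pool.Agent.Helper6.QS (dt)

variable {Ω : Type*} [Field Ω] {N : ℕ}

theorem dN_alt (z : Fin (N + 1) → Ω) (t : Fin N → Fin (N + 1) → Ω) :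
    dN z t = (Matrix.detRowAlternating : (Fin (N + 1) → Ω) [⋀^Fin (N + 1)]→ₗ[Ω] Ω)
      (Fin.cons z t : Fin (N + 1) → Fin (N + 1) → Ω) := rfl

/-- the determinant as a linear function of the first row -/
noncomputable def dNl (t : Fin N → Fin (N + 1) → Ω) : (Fin (N + 1) → Ω) →ₗ[Ω] Ω where
  toFun z := dN z t
  map_add' z z' := by
    simp only [dN_alt]
    have h := (Matrix.detRowAlternating : (Fin (N + 1) → Ω) [⋀^Fin (N + 1)]→ₗ[Ω] Ω).map_update_add
      (Fin.cons z t : Fin (N + 1) → Fin (N + 1) → Ω) 0 z z'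
    rw [Fin.update_cons_zero, Fin.update_cons_zero, Fin.update_cons_zero] at h
    exact h
  map_smul' c z := by
    simp only [dN_alt]
    have h := (Matrix.detRowAlternating : (Fin (N + 1) → Ω) [⋀^Fin (N + 1)]→ₗ[Ω] Ω).map_update_smul
      (Fin.cons z t : Fin (N + 1) → Fin (N + 1) → Ω) 0 c z
    rw [Fin.update_cons_zero, Fin.update_cons_zero] at h
    exact h

theorem dNl_apply (t : Fin N → Fin (N + 1) → Ω) (z : Fin (N + 1) → Ω) : dNl t z = dN z t := rfl

theorem dN_upd_add (z : Fin (N + 1) → Ω) (t : Fin N → Fin (N + 1) → Ω) (k : Fin N)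
    (u v : Fin (N + 1) → Ω) : dN z (Function.update t k (u + v)) =
      dN z (Function.update t k u) + dN z (Function.update t k v) := by
  simp only [dN_alt]
  have h := (Matrix.detRowAlternating : (Fin (N + 1) → Ω) [⋀^Fin (N + 1)]→ₗ[Ω] Ω).map_update_add
    (Fin.cons z t : Fin (N + 1) → Fin (N + 1) → Ω) k.succ u v
  rw [← Fin.cons_update, ← Fin.cons_update, ← Fin.cons_update] at h
  exact h

theorem dN_upd_smul (z : Fin (N + 1) → Ω) (t : Fin N → Fin (N + 1) → Ω) (k : Fin N) (c : Ω)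
    (u : Fin (N + 1) → Ω) : dN z (Function.update t k (c • u)) =
      c * dN z (Function.update t k u) := by
  simp only [dN_alt]
  have h := (Matrix.detRowAlternating : (Fin (N + 1) → Ω) [⋀^Fin (N + 1)]→ₗ[Ω] Ω).map_update_smul
    (Fin.cons z t : Fin (N + 1) → Fin (N + 1) → Ω) k.succ c u
  rw [← Fin.cons_update, ← Fin.cons_update, smul_eq_mul] at h
  exact h

theorem dN_eq (z : Fin (N + 1) → Ω) (t : Fin N → Fin (N + 1) → Ω) (i j : Fin N) (hij : i ≠ j)
    (h : t i = t j) : dN z t = 0 := by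
  rw [dN_alt]
  refine (Matrix.detRowAlternating : (Fin (N + 1) → Ω) [⋀^Fin (N + 1)]→ₗ[Ω] Ω).map_eq_zero_of_eq
    _ (i := i.succ) (j := j.succ) ?_ ?_
  · rw [Fin.cons_succ, Fin.cons_succ, h]
  · exact fun h' => hij (Fin.succ_injective _ h')

theorem dN_perp (g : Fin (N + 1) → Ω) (hg : g ≠ 0) (z : Fin (N + 1) → Ω)
    (t : Fin N → Fin (N + 1) → Ω) (hz : dt g z = 0) (ht : ∀ i, dt g (t i) = 0) :
    dN z t = 0 := by
  refine Matrix.exists_mulVec_eq_zero_iff.1 ⟨g, hg, ?_⟩
  have key : ∀ y : Fin (N + 1) → Ω, dt g y = 0 → y ⬝ᵥ g = 0 := by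
    intro y hy
    rw [← hy]
    exact Finset.sum_congr rfl fun i _ => mul_comm _ _
  funext i
  refine Fin.cases ?_ (fun i => ?_) i
  · exact key z hz
  · exact key (t i) (ht i)

/-- Cramer's rule with one row `w` outside the hyperplane -/
theorem dN_cram (g w : Fin (N + 1) → Ω) (hg : g ≠ 0) (t : Fin N → Fin (N + 1) → Ω)
    (ht : ∀ i, dt g (t i) = 0) (e : Fin (N + 1) → Ω) (he : dt g e = 0) :
    dN w t • e = ∑ k, dN w (Function.update t k e) • t k := by
  set A : Matrix (Fin (N + 1)) (Fin (N + 1)) Ω :=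
    Matrix.of (Fin.cons w t : Fin (N + 1) → Fin (N + 1) → Ω) with hA
  have h1 := Matrix.mulVec_cramer A.transpose e
  rw [Matrix.det_transpose] at h1
  have h0 : Matrix.cramer A.transpose e 0 = 0 := by
    rw [Matrix.cramer_transpose_apply]
    have : (A.updateRow 0 e).det = dN e t := by
      rw [dN]
      congr 1
      rw [hA]
      ext i j
      refine Fin.cases ?_ (fun i => ?_) i
      · simp
      · simp
    rw [this]
    exact dN_perp g hg e t he ht
  have hs : ∀ k : Fin N, Matrix.cramer A.transpose e k.succ = dN w (Function.update t k e) := by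
    intro k
    rw [Matrix.cramer_transpose_apply, dN]
    congr 1
    rw [Fin.cons_update, hA]
    rfl
  change A.det • e = _
  rw [← h1]
  funext l
  rw [Matrix.mulVec, dotProduct, Fin.sum_univ_succ, h0, mul_zero, zero_add, Finset.sum_apply]
  refine Finset.sum_congr rfl fun k _ => ?_
  rw [hs k, Pi.smul_apply, smul_eq_mul, mul_comm]
  rfl

theorem dN_span (g w : Fin (N + 1) → Ω) (hg : g ≠ 0) (t : Fin N → Fin (N + 1) → Ω)
    (ht : ∀ i, dt g (t i) = 0) (hw : dN w t ≠ 0) (e : Fin (N + 1) → Ω) (he : dt g e = 0) :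
    e = ∑ k, (dN w (Function.update t k e) / dN w t) • t k := by
  have h := dN_cram g w hg t ht e he
  have h2 : e = (dN w t)⁻¹ • (dN w t • e) := by
    rw [smul_smul, inv_mul_cancel₀ hw, one_smul]
  rw [h, Finset.smul_sum] at h2
  rw [h2]
  refine Finset.sum_congr rfl fun k _ => ?_
  rw [smul_smul, ← h2, div_eq_mul_inv, mul_comm]

theorem dN_cramer (g w : Fin (N + 1) → Ω) (hg : g ≠ 0) (t : Fin N → Fin (N + 1) → Ω)
    (ht : ∀ i, dt g (t i) = 0) (hw : dN w t ≠ 0) (e : Fin (N + 1) → Ω) (he : dt g e = 0)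
    (h : ∀ k, dN w (Function.update t k e) = 0) : e = 0 := by
  rw [dN_span g w hg t ht hw e he]
  refine Finset.sum_eq_zero fun k _ => ?_
  rw [h k, zero_div, zero_smul]

theorem dN_unit (w : Fin (N + 1) → Ω) (hw : w ≠ 0) :
    ∃ t : Fin N → Fin (N + 1) → Ω, (∀ i, ∃ k, t i = Pi.single k 1) ∧ dN w t ≠ 0 := by
  obtain ⟨k, hk⟩ := Function.ne_iff.1 hw
  refine ⟨fun i => Pi.single (k.succAbove i) 1, fun i => ⟨_, rfl⟩, fun h0 => ?_⟩
  obtain ⟨v, hv, hv0⟩ := Matrix.exists_mulVec_eq_zero_iff.2 h0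
  have hr : ∀ i : Fin (N + 1), dotProduct ((Fin.cons w (fun i : Fin N =>
      (Pi.single (k.succAbove i) 1 : Fin (N + 1) → Ω)) : Fin (N + 1) → Fin (N + 1) → Ω) i) v = 0 :=
    fun i => congrFun hv0 i
  have h1 : ∀ i : Fin N, v (k.succAbove i) = 0 := by
    intro i
    have := hr i.succ
    rw [Fin.cons_succ, single_dotProduct, one_mul] at this
    exact this
  have h2 : w k * v k = 0 := by
    have := hr 0
    rw [Fin.cons_zero, dotProduct, Fin.sum_univ_succAbove _ k,
      Finset.sum_eq_zero (fun i _ => by rw [h1 i, mul_zero]), add_zero] at this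
    exact this
  have h3 : v k = 0 := (mul_eq_zero.1 h2).resolve_left (by simpa using hk)
  apply hv
  funext l
  rcases eq_or_ne l k with rfl | hl
  · exact h3
  · obtain ⟨i, rfl⟩ := Fin.exists_succAbove_eq hl
    exact h1 i

/-- `dN w t ≠ 0` implies that the `t i` are independent -/
theorem dN_indep (w : Fin (N + 1) → Ω) (t : Fin N → Fin (N + 1) → Ω) (hw : dN w t ≠ 0) :
    LinearIndependent Ω t := by
  have h : LinearIndependent Ω (Fin.cons w t : Fin (N + 1) → Fin (N + 1) → Ω) := by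
    by_contra hc
    exact hw ((Matrix.detRowAlternating :
      (Fin (N + 1) → Ω) [⋀^Fin (N + 1)]→ₗ[Ω] Ω).map_linearDependent _ hc)
  have h2 := h.comp Fin.succ (Fin.succ_injective _)
  have h3 : (Fin.cons w t : Fin (N + 1) → Fin (N + 1) → Ω) ∘ Fin.succ = t := by
    funext i
    exact Fin.cons_succ _ _ _
  rwa [h3] at h2

end Pool.Agent.Helper10.PN
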