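import Pool.Agent.Helper10.LB.BField
import Pool.Agent.Helper6.QS.Line

/-!
# PN-LINEEV: a point of the ultrapower on a line over `L`

Almost all members of the sequence lie on the line.
-/

set_option autoImplicit false

namespace Pool.Agent.Helper10.PN

open scoped BigOperators
open Pool.Agent.Helper8.LG Pool.Agent.Helper10.LB

theorem line_ev {L Ω : Type*} [Field L] [Field Ω] {N : ℕ} {Q : (ℕ → L) →+* Ω} (hQ : IsUl Q)
    (X : ℕ → Fin (N + 1) → L) (u v : Fin (N + 1) → L) (b b' : Fin (N + 1))
    (hp : u b * v b' - u b' * v b ≠ 0) (s t : Ω)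
    (hx : ∀ l, (Q fun m => X m l) = s * (Q fun _ => u l) + t * (Q fun _ => v l)) :
    ∀ᶠ m in (Filter.hyperfilter ℕ : Filter ℕ), X m ∈ Submodule.span L {u, v} := by
  have h1 : ∀ l, ∀ᶠ m in (Filter.hyperfilter ℕ : Filter ℕ),
      (u b * v b' - u b' * v b) * X m l = (X m b * v b' - X m b' * v b) * u l +
        (u b * X m b' - u b' * X m b) * v l := by
    intro l
    rw [← ul_eq Q hQ.ker (fun m => (u b * v b' - u b' * v b) * X m l)
      (fun m => (X m b * v b' - X m b' * v b) * u l + (u b * X m b' - u b' * X m b) * v l)]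
    have e1 : (fun m => (u b * v b' - u b' * v b) * X m l) =
        ((fun _ : ℕ => u b) * (fun _ => v b') - (fun _ => u b') * (fun _ => v b)) *
          (fun m => X m l) := rfl
    have e2 : (fun m => (X m b * v b' - X m b' * v b) * u l +
        (u b * X m b' - u b' * X m b) * v l) =
        ((fun m => X m b) * (fun _ => v b') - (fun m => X m b') * (fun _ => v b)) *
          (fun _ => u l) +
        ((fun _ => u b) * (fun m => X m b') - (fun _ => u b') * (fun m => X m b)) *
          (fun _ => v l) := rfl
    rw [e1, e2]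
    simp only [map_add, map_sub, map_mul]
    rw [hx l, hx b, hx b']
    ring
  filter_upwards [Filter.eventually_all.2 h1] with m hm
  rw [Submodule.mem_span_pair]
  refine ⟨(X m b * v b' - X m b' * v b) / (u b * v b' - u b' * v b),
    (u b * X m b' - u b' * X m b) / (u b * v b' - u b' * v b), ?_⟩
  funext l
  have h2 := hm l
  simp only [Pi.add_apply, Pi.smul_apply, smul_eq_mul]
  rw [div_mul_eq_mul_div, div_mul_eq_mul_div, ← add_div, div_eq_iff hp, ← h2]
  ring

end Pool.Agent.Helper10.PN
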