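import Pool.Agent.Helper10.PN.Defs

/-!
# PN-LINEN: rational lines

`lnN_of_mem`: `u = x`, `v = e_1` (`N + 1 ≥ 2`, `x_0 = 1`). `lnN_of_plu`: with
`p_jb = x_j y_b - x_b y_j`, `p_(j0 b0) ≠ 0`: `u = (p_(j0 l))_l`, `v = (p_(b0 l))_l`,
`u_j0 v_b0 - u_b0 v_j0 = p_(j0 b0)^2`, `x = (x_b0 u - x_j0 v) / p_(j0 b0)`.
-/

set_option autoImplicit false

namespace Pool.Agent.Helper10.PN

variable {Ω : Type*} [Field Ω] {N : ℕ}

theorem lnN_of_mem {B : Subfield Ω} {x : Fin (N + 1) → Ω} (hN : 1 ≤ N) (h1 : x 0 = 1)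
    (hx : ∀ l, x l ∈ B) : LnN B x := by
  have h01 : (0 : Fin (N + 1)) ≠ ⟨1, by omega⟩ := by
    intro h
    have := congrArg Fin.val h
    simp at this
  refine ⟨x, fun i => if i = ⟨1, by omega⟩ then 1 else 0, hx, ?_, ⟨0, ⟨1, by omega⟩, ?_⟩, 1, 0,
    fun l => by simp⟩
  · intro i
    by_cases h : i = ⟨1, by omega⟩
    · simp only [h, if_true]; exact B.one_mem
    · simp only [h, if_false]; exact B.zero_mem
  · simp only [if_true, if_neg h01, h1]
    simp

theorem lnN_of_plu {B : Subfield Ω} {x y : Fin (N + 1) → Ω}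
    (h0 : ∃ j b, x j * y b - x b * y j ≠ 0) (hB : ∀ j b, x j * y b - x b * y j ∈ B) :
    LnN B x := by
  obtain ⟨j, b, h⟩ := h0
  refine ⟨fun l => x j * y l - x l * y j, fun l => x b * y l - x l * y b, fun l => hB j l,
    fun l => hB b l, ⟨j, b, ?_⟩, x b / (x j * y b - x b * y j),
    - x j / (x j * y b - x b * y j), fun l => ?_⟩
  · have e : (x j * y j - x j * y j) * (x b * y b - x b * y b) -
        (x j * y b - x b * y j) * (x b * y j - x j * y b) =
        (x j * y b - x b * y j) ^ 2 := by ring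
    have := pow_ne_zero 2 h
    rw [← e] at this
    exact this
  · field_simp
    ring

end Pool.Agent.Helper10.PN
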