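import Pool.Agent.Helper10.PN.SpanN

/-!
# PN-WTN: the weight calculus for `Fin (N + 1)`

`wa_detN`: `Matrix.det_apply`: each product over a permutation has weight `∑ e` (`WA.mul` over a
finite set; sign `± 1`: `WA.neg` or `zsmul`). `wa_sgN`: `sg_eq`, `wa_et` (as `GRatL_wt2` in
`Helper74/PQ/GRatL.lean`). `wa_lam`: `et_powN` and `WA.inv_pow` (as `SmallL_main` in
`Helper74/PQ/SmallL.lean`). `rat_lam`: `wa_rat`; `pt_lam`: `WA.le`, `wa_pt`.
-/

set_option autoImplicit false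

namespace Pool.Agent.Helper10.PN

open scoped BigOperators
open MvPolynomial
open Pool.Agent.Helper8.LG (Bdd RowBdd form mon)
open Pool.Agent.Helper49.LN (cP mo)
open Pool.Agent.Helper6.QS
open Pool.Agent.Helper74.Q8 (rr)
open Pool.Agent.Helper74.PQ

section

variable {Ω : Type*} [Field Ω] {N q : ℕ} {D : Sym (Fin (N + 1)) q → Derivation ℤ Ω Ω}
  {a : Sym (Fin (N + 1)) q → Ω} {B : Subfield Ω} {x : Fin (N + 1) → Ω}

/-- finite products -/
theorem WtN_prod {C : ValuationSubring Ω → Prop} {m : Fin (N + 1)} (hm : x m ≠ 0)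
    {ι : Type*} (s : Finset ι) (e : ι → ℤ) (f : ι → Ω)
    (hf : ∀ i ∈ s, WA D a B x C m (e i) (f i)) :
    WA D a B x C m (∑ i ∈ s, e i) (∏ i ∈ s, f i) := by
  classical
  induction s using Finset.induction_on with
  | empty =>
    rw [Finset.sum_empty, Finset.prod_empty]
    exact WA.of_mem (one_mem B)
  | insert i s hi ih =>
    rw [Finset.sum_insert hi, Finset.prod_insert hi]
    exact WA.mul hm (hf i (Finset.mem_insert_self i s))
      (ih fun j hj => hf j (Finset.mem_insert_of_mem hj))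

theorem wa_detN {C : ValuationSubring Ω → Prop} {m : Fin (N + 1)} (hm : x m ≠ 0)
    (z : Fin (N + 1) → Ω) (t : Fin N → Fin (N + 1) → Ω) (e₀ : ℤ) (e : Fin N → ℤ)
    (hz : ∀ l, WA D a B x C m e₀ (z l)) (ht : ∀ i l, WA D a B x C m (e i) (t i l)) :
    WA D a B x C m (e₀ + ∑ i, e i) (dN z t) := by
  have hrow : ∀ r l, WA D a B x C m ((Fin.cons e₀ e : Fin (N + 1) → ℤ) r)
      ((Fin.cons z t : Fin (N + 1) → Fin (N + 1) → Ω) r l) := by
    intro r l
    refine Fin.cases ?_ (fun i => ?_) r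
    · rw [Fin.cons_zero, Fin.cons_zero]
      exact hz l
    · rw [Fin.cons_succ, Fin.cons_succ]
      exact ht i l
  unfold dN
  rw [Matrix.det_apply']
  refine WA.sum _ _ fun σ _ => WA.smul_mem hm ?_ ?_
  · exact intCast_mem B _
  · have h1 := WtN_prod (D := D) (a := a) (B := B) (C := C) hm Finset.univ
      (fun i => (Fin.cons e₀ e : Fin (N + 1) → ℤ) (σ i))
      (fun i => (Fin.cons z t : Fin (N + 1) → Fin (N + 1) → Ω) (σ i) i)
      (fun i _ => hrow (σ i) i)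
    rw [Equiv.sum_comp σ (Fin.cons e₀ e : Fin (N + 1) → ℤ), Fin.sum_univ_succ] at h1
    simp only [Fin.cons_zero, Fin.cons_succ] at h1
    exact h1

theorem wa_unit {C : ValuationSubring Ω → Prop} {m : Fin (N + 1)} (k l : Fin (N + 1)) :
    WA D a B x C m 0 ((Pi.single k 1 : Fin (N + 1) → Ω) l) := by
  rw [Pi.single_apply]
  split_ifs
  · exact WA.of_mem (one_mem B)
  · exact WA.zero

end

variable {Ω : Type*} [Field Ω] [CharZero Ω] {N q : ℕ} {D : Sym (Fin (N + 1)) q → Derivation ℤ Ω Ω}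
  {a : Sym (Fin (N + 1)) q → Ω} {B : Subfield Ω} {x : Fin (N + 1) → Ω}

theorem wa_etN (h : PtN D a B x) {m : Fin (N + 1)} (hm : x m ≠ 0)
    (f : MvPolynomial (Fin (N + 1)) Ω) (hf : RatP B f) (l : Fin (N + 1)) :
    WA D a B x (fun _ => True) m 1 (et D a x f l) :=
  wa_et h.frame (q_ne h) h.ne hm f hf l

theorem wa_sgN (h : PtN D a B x) {m : Fin (N + 1)} (hm : x m ≠ 0) (K : Fin (N + 1) →₀ ℕ)
    (j b l : Fin (N + 1)) : WA D a B x (fun _ => True) m 2 (sg D a x K j b l) := by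
  have h1 : ∀ c, WA D a B x (fun _ => True) m 1 (et D a x (monomial K 1 * X c) l) := fun c =>
    wa_etN h hm _ (ratP_mul (ratP_mono K (one_mem B)) (ratP_X c)) l
  have e1 : sg D a x K j b l = x j * et D a x (monomial K 1 * X b) l -
      x b * et D a x (monomial K 1 * X j) l := by
    rw [sg_eq]
    rfl
  rw [e1, show (2 : ℤ) = 1 + 1 by norm_num]
  exact WA.sub (WA.mul hm (WA.coord j) (h1 b)) (WA.mul hm (WA.coord b) (h1 j))

theorem wa_powN (h : PtN D a B x) {m : Fin (N + 1)} (hm : x m ≠ 0) (l : Fin (N + 1)) :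
    WA D a B x (fun _ => True) m 1 (et D a x (X m ^ q) l) :=
  wa_etN h hm _ (ratP_pow (ratP_X m) q) l

theorem wa_lam (h : PtN D a B x) (Λ : (Fin (N + 1) → Ω) →ₗ[Ω] Ω)
    (hΛ : ∀ K b, Λ (sg D a x K 0 b) = 0) (e : ℤ)
    (hw : ∀ m, x m ≠ 0 → WA D a B x (fun _ => True) m e (Λ (et D a x (X m ^ q)))) :
    ∀ m, x m ≠ 0 → WA D a B x (fun _ => True) m (e - q) (Λ (et D a x (X 0 ^ q))) := by
  intro m hm
  have h1 := et_powN h.one Λ hΛ m
  have h2 : Λ (et D a x (X 0 ^ q)) = (x m ^ q)⁻¹ * Λ (et D a x (X m ^ q)) := by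
    rw [h1, smul_eq_mul, ← mul_assoc, inv_mul_cancel₀ (pow_ne_zero _ hm), one_mul]
  have h3 := WA.mul hm (WA.inv_pow (D := D) (a := a) (B := B) (C := fun _ => True) hm q)
    (hw m hm)
  rw [h2, show e - (q : ℤ) = -(q : ℤ) + e by ring]
  exact h3

theorem rat_lam (h : PtN D a B x) (Λ : (Fin (N + 1) → Ω) →ₗ[Ω] Ω)
    (hΛ : ∀ K b, Λ (sg D a x K 0 b) = 0) (e : ℤ) (he : e ≤ q)
    (hw : ∀ m, x m ≠ 0 → WA D a B x (fun _ => True) m e (Λ (et D a x (X m ^ q)))) :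
    Λ (et D a x (X 0 ^ q)) ∈ B :=
  wa_rat h.frame h.one fun m hm => WA.le h.one hm (by omega) (wa_lam h Λ hΛ e hw m hm)

theorem pt_lam (h : PtN D a B x) (Λ : (Fin (N + 1) → Ω) →ₗ[Ω] Ω)
    (hΛ : ∀ K b, Λ (sg D a x K 0 b) = 0) (h0 : Λ (et D a x (X 0 ^ q)) ≠ 0) (e : ℤ)
    (he : e < q)
    (hw : ∀ m, x m ≠ 0 → WA D a B x (fun _ => True) m e (Λ (et D a x (X m ^ q)))) :
    ∀ l, x l ∈ B :=
  wa_pt h.frame h.one h0 fun m hm => WA.le h.one hm (by omega) (wa_lam h Λ hΛ e hw m hm)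

end Pool.Agent.Helper10.PN
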