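import Pool.Agent.Helper10.PN.ExchN
import Pool.Agent.Helper10.PN.WtN

/-!
# PN-ONTON: the singles span, or the point is rational

`exch` with `g = gr a x`, `w = et (X_0^q)`, `S` = the set of all `sg K j b`. First alternative: the
basis. Second: `Λ = dNl t` kills the `sg K 0 b`, `Λ w = dN w t ≠ 0`, and `Λ (et (X_m^q))` has weight
`1 + ∑ ε i ≤ 1 + 2 (N - 1) < q = 2 N` (`wa_detN`, `wa_powN`, `wa_sgN`, `wa_unit`; some `ε i = 0`,
all `ε i ≤ 2`): `pt_lam`.
-/

set_option autoImplicit false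

namespace Pool.Agent.Helper10.PN

open scoped BigOperators
open MvPolynomial
open Pool.Agent.Helper8.LG (Bdd RowBdd form mon)
open Pool.Agent.Helper6.QS
open Pool.Agent.Helper74.Q8 (rr)
open Pool.Agent.Helper74.PQ

variable {Ω : Type*} [Field Ω] [CharZero Ω] {N q : ℕ} {D : Sym (Fin (N + 1)) q → Derivation ℤ Ω Ω}
  {a : Sym (Fin (N + 1)) q → Ω} {B : Subfield Ω} {x : Fin (N + 1) → Ω}

theorem onto_n (h : PtN D a B x) : (∀ l, x l ∈ B) ∨
    ∃ (K : Fin N → Fin (N + 1) →₀ ℕ) (j b : Fin N → Fin (N + 1)), Bas D a x K j b := by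
  have hw : dt (gr a x) (et D a x (X 0 ^ q)) ≠ 0 := by
    rw [gr_powN h]
    exact neg_ne_zero.2 one_ne_zero
  rcases exch (gr a x) (et D a x (X 0 ^ q)) hw
    {v | ∃ (K : Fin (N + 1) →₀ ℕ) (j b : Fin (N + 1)), v = sg D a x K j b}
    (by
      rintro s ⟨K, j, b, rfl⟩
      exact gr_sg h K j b) with ⟨t, ht, hne⟩ | ⟨t, ε, hne, hε, ⟨i₀, hi₀⟩, hz⟩
  · right
    choose K j b ht using ht
    refine ⟨K, j, b, ?_⟩
    have h1 : (fun i => sg D a x (K i) (j i) (b i)) = t := by
      funext i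
      exact (ht i).symm
    unfold Bas
    rw [h1]
    exact hne
  · left
    have hΛ : ∀ K b, dNl t (sg D a x K 0 b) = 0 := fun K b => by
      rw [dNl_apply]
      exact hz _ ⟨K, 0, b, rfl⟩
    have h0 : dNl t (et D a x (X 0 ^ q)) ≠ 0 := by
      rw [dNl_apply]
      exact hne
    have hle : ∀ i, ε i ≤ 2 := by
      intro i
      rcases hε i with h1 | h1
      · exact h1.1.le
      · rw [h1.1]
        norm_num
    have hsum : ∑ i, ε i ≤ 2 * (N : ℤ) - 2 := by
      have h1 : ∑ i, ε i = ε i₀ + ∑ i ∈ Finset.univ.erase i₀, ε i :=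
        (Finset.add_sum_erase _ _ (Finset.mem_univ i₀)).symm
      have h2 : ∑ i ∈ Finset.univ.erase i₀, ε i ≤
          ∑ _i ∈ Finset.univ.erase i₀, (2 : ℤ) := Finset.sum_le_sum fun i _ => hle i
      have h3 : ∑ _i ∈ Finset.univ.erase i₀, (2 : ℤ) = 2 * (N : ℤ) - 2 := by
        rw [Finset.sum_const, Finset.card_erase_of_mem (Finset.mem_univ i₀), Finset.card_univ,
          Fintype.card_fin, nsmul_eq_mul]
        have h4 : 3 ≤ N := h.hN
        rw [Nat.cast_sub (by omega)]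
        push_cast
        ring
      rw [h1, hi₀, zero_add]
      rw [h3] at h2
      exact h2
    have he : 1 + ∑ i, ε i < (q : ℤ) := by
      have h1 : (q : ℤ) = 2 * (N : ℤ) := by
        rw [h.hq]
        push_cast
        ring
      rw [h1]
      linarith
    refine pt_lam h (dNl t) hΛ h0 (1 + ∑ i, ε i) he fun m hm => ?_
    rw [dNl_apply]
    refine wa_detN hm _ t 1 ε (wa_powN h hm) fun i l => ?_
    rcases hε i with ⟨h1, K, j, b, h2⟩ | ⟨h1, k, h2⟩
    · rw [h1, h2]
      exact wa_sgN h hm K j b l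
    · rw [h1, h2]
      exact wa_unit k l

end Pool.Agent.Helper10.PN
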