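import Pool.Agent.Helper10.PN.Defs

/-!
# PN-PARAMN: a point on a rational line, parameters

Copy of `ln_param` (`Helper74/PQ/LnParam.lean`).
-/

set_option autoImplicit false

namespace Pool.Agent.Helper10.PN

open scoped BigOperators
open Pool.Agent.Helper8.LG (form mon)

private theorem ParamN_eval {Ω : Type*} [Field Ω] {N q : ℕ} (a : Sym (Fin (N + 1)) q → Ω)
    (p r : Fin (N + 1) → Ω) (y : Ω) :
    Polynomial.eval y (form (fun J => Polynomial.C (a J))
      (fun l => Polynomial.C (p l) + Polynomial.X * Polynomial.C (r l))) =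
      form a (fun l => p l + y * r l) := by
  unfold form mon
  rw [Polynomial.eval_finsetSum]
  refine Finset.sum_congr rfl fun J _ => ?_
  rw [Polynomial.eval_mul, Polynomial.eval_C]
  congr 1
  rw [← Polynomial.coe_evalRingHom, map_multiset_prod, Multiset.map_map]
  congr 1
  refine Multiset.map_congr rfl fun l _ => ?_
  show Polynomial.eval y (Polynomial.C (p l) + Polynomial.X * Polynomial.C (r l)) = _
  rw [Polynomial.eval_add, Polynomial.eval_mul, Polynomial.eval_C, Polynomial.eval_C,
    Polynomial.eval_X]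

private theorem ParamN_scale {Ω : Type*} [Field Ω] {N q : ℕ} (a : Sym (Fin (N + 1)) q → Ω)
    (c : Ω) (x : Fin (N + 1) → Ω) : form a (fun l => c * x l) = c ^ q * form a x := by
  unfold form mon
  rw [Finset.mul_sum]
  refine Finset.sum_congr rfl fun J _ => ?_
  have h1 : ((J : Multiset (Fin (N + 1))).map fun l => c * x l).prod =
      c ^ q * ((J : Multiset (Fin (N + 1))).map x).prod := by
    rw [Multiset.prod_map_mul]
    congr 1
    rw [Multiset.map_const', Multiset.prod_replicate, Sym.card_coe]
  rw [h1]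
  ring

private theorem ParamN_nat {Ω : Type*} [Field Ω] [CharZero Ω] {N q : ℕ} (a : Sym (Fin (N + 1)) q → Ω)
    (p r : Fin (N + 1) → Ω) (y : Ω) (h : form a (fun l => p l + y * r l) ≠ 0) :
    ∃ n : ℕ, form a (fun l => p l + (n : Ω) * r l) ≠ 0 := by
  by_contra hcon
  push Not at hcon
  refine h ?_
  rw [← ParamN_eval]
  have h0 : form (fun J => Polynomial.C (a J))
      (fun l => Polynomial.C (p l) + Polynomial.X * Polynomial.C (r l)) = 0 := by
    refine Polynomial.eq_zero_of_infinite_isRoot _ ?_
    refine (Set.infinite_range_of_injective (Nat.cast_injective (R := Ω))).mono ?_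
    rintro _ ⟨n, rfl⟩
    show Polynomial.eval (n : Ω) _ = 0
    rw [ParamN_eval]
    exact hcon n
  rw [h0, Polynomial.eval_zero]

theorem param_n {Ω : Type*} [Field Ω] [CharZero Ω] {N q : ℕ} {a : Sym (Fin (N + 1)) q → Ω}
    {B : Subfield Ω} {x : Fin (N + 1) → Ω} (ha : ∀ J, a J ∈ B) (hx : x 0 = 1) (hF : form a x ≠ 0)
    (hL : LnN B x) :
    (∀ l, x l ∈ B) ∨ ∃ (u v : Fin (N + 1) → Ω) (lam z : Ω) (b b' : Fin (N + 1)), (∀ l, u l ∈ B) ∧
      (∀ l, v l ∈ B) ∧ u b * v b' - u b' * v b ≠ 0 ∧ form a v ≠ 0 ∧ lam ≠ 0 ∧ z ∉ B ∧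
      ∀ l, x l = lam * (u l + z * v l) := by
  obtain ⟨p, r, hp, hr, ⟨b, b', hd⟩, s, t, hxx⟩ := hL
  by_cases hs : s = 0
  · left
    have h1 : t * r 0 = 1 := by
      rw [← hx, hxx 0, hs]
      ring
    have ht : t ∈ B := by
      rw [eq_inv_of_mul_eq_one_left h1]
      exact inv_mem (hr 0)
    intro l
    rw [hxx l, hs, zero_mul, zero_add]
    exact mul_mem ht (hr l)
  · obtain ⟨n, hn⟩ := ParamN_nat a p r (t / s) (by
      intro h0
      refine hF ?_
      have h1 : x = fun l => s * (p l + t / s * r l) := by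
        funext l
        rw [hxx l]
        field_simp
      rw [h1, ParamN_scale a s (fun l => p l + t / s * r l), h0, mul_zero])
    have hv : ∀ l, p l + (n : Ω) * r l ∈ B := fun l =>
      add_mem (hp l) (mul_mem (natCast_mem B n) (hr l))
    by_cases ht : t - s * n = 0
    · left
      have h2 : ∀ l, x l = s * (p l + (n : Ω) * r l) := by
        intro l
        rw [hxx l]
        linear_combination (r l) * ht
      have h1 : s * (p 0 + (n : Ω) * r 0) = 1 := by rw [← hx, h2 0]
      have hsB : s ∈ B := by
        rw [eq_inv_of_mul_eq_one_left h1]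
        exact inv_mem (hv 0)
      intro l
      rw [h2 l]
      exact mul_mem hsB (hv l)
    · have h2 : ∀ l, x l = (t - s * n) * (r l + s / (t - s * n) * (p l + (n : Ω) * r l)) := by
        intro l
        rw [hxx l]
        field_simp
        ring
      by_cases hz : s / (t - s * n) ∈ B
      · left
        have h1 : (t - s * n) * (r 0 + s / (t - s * n) * (p 0 + (n : Ω) * r 0)) = 1 := by
          rw [← hx]
          exact (h2 0).symm
        have hc : ∀ l, r l + s / (t - s * n) * (p l + (n : Ω) * r l) ∈ B := fun l =>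
          add_mem (hr l) (mul_mem hz (hv l))
        have hlB : t - s * n ∈ B := by
          rw [eq_inv_of_mul_eq_one_left h1]
          exact inv_mem (hc 0)
        intro l
        rw [h2 l]
        exact mul_mem hlB (hc l)
      · right
        refine ⟨r, fun l => p l + (n : Ω) * r l, t - s * n, s / (t - s * n), b, b', hr, hv, ?_,
          hn, ht, hz, h2⟩
        intro h0
        refine hd ?_
        have h3 : r b * (p b' + (n : Ω) * r b') - r b' * (p b + (n : Ω) * r b) = 0 := h0
        linear_combination -h3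

end Pool.Agent.Helper10.PN
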