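import Pool.Agent.Helper10.PN.WtN
import Pool.Agent.Helper10.PN.LineN

/-!
# PN-SINGN: a single in a determinant of weight zero gives a rational line

`y_b = dN w (update t k (et (X^K X_b)))`, `w = et (X_0^q)`:
`x_j y_b - x_b y_j = dN w (update t k (sg K j b))` (`sg_eq`, `dN_upd_add`, `dN_upd_smul`). With
`Λ = dNl (update t k (sg K j b))`: `Λ` kills everything orthogonal to `gr a x` (`dN_perp`, `gr_sg`),
so `rat_lam` with `e = q` gives that it is in `B`. It is not zero for the `j₀`, `b₀` of `hne`.
`lnN_of_plu`.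
-/

set_option autoImplicit false

namespace Pool.Agent.Helper10.PN

open scoped BigOperators
open MvPolynomial
open Pool.Agent.Helper8.LG (Bdd RowBdd form mon)
open Pool.Agent.Helper6.QS
open Pool.Agent.Helper74.Q8 (rr)
open Pool.Agent.Helper74.PQ

variable {Ω : Type*} [Field Ω] [CharZero Ω] {N q : ℕ} {D : Sym (Fin (N + 1)) q → Derivation ℤ Ω Ω}
  {a : Sym (Fin (N + 1)) q → Ω} {B : Subfield Ω} {x : Fin (N + 1) → Ω}

/-- the row `k` of the updated family is the difference -/
theorem SingN_sub (z : Fin (N + 1) → Ω) (t : Fin N → Fin (N + 1) → Ω) (k : Fin N)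
    (c d : Ω) (u v : Fin (N + 1) → Ω) : dN z (Function.update t k (c • u - d • v)) =
      c * dN z (Function.update t k u) - d * dN z (Function.update t k v) := by
  have h1 : c • u - d • v = c • u + (-d) • v := by
    rw [neg_smul, sub_eq_add_neg]
  rw [h1, dN_upd_add, dN_upd_smul, dN_upd_smul]
  ring

theorem SingN_perp (h : PtN D a B x) (t : Fin N → Fin (N + 1) → Ω)
    (ht : ∀ i, dt (gr a x) (t i) = 0) (k : Fin N) (K : Fin (N + 1) →₀ ℕ) (j b : Fin (N + 1))
    (i : Fin N) : dt (gr a x) (Function.update t k (sg D a x K j b) i) = 0 := by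
  by_cases hik : i = k
  · rw [hik, Function.update_self]
    exact gr_sg h K j b
  · rw [Function.update_of_ne hik]
    exact ht i

theorem single_line (h : PtN D a B x) (t : Fin N → Fin (N + 1) → Ω)
    (ht : ∀ i, dt (gr a x) (t i) = 0) (k : Fin N) (K : Fin (N + 1) →₀ ℕ)
    (hne : ∃ j b, dN (et D a x (X 0 ^ q)) (Function.update t k (sg D a x K j b)) ≠ 0)
    (hw : ∀ j b m, x m ≠ 0 → WA D a B x (fun _ => True) m q
      (dN (et D a x (X m ^ q)) (Function.update t k (sg D a x K j b)))) : LnN B x := by
  have key : ∀ j b, x j * dN (et D a x (X 0 ^ q))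
        (Function.update t k (et D a x (monomial K 1 * X b))) -
      x b * dN (et D a x (X 0 ^ q)) (Function.update t k (et D a x (monomial K 1 * X j))) =
      dN (et D a x (X 0 ^ q)) (Function.update t k (sg D a x K j b)) := by
    intro j b
    rw [sg_eq, SingN_sub]
  refine lnN_of_plu (x := x) (y := fun b => dN (et D a x (X 0 ^ q))
    (Function.update t k (et D a x (monomial K 1 * X b)))) ?_ ?_
  · obtain ⟨j, b, hjb⟩ := hne
    exact ⟨j, b, by rw [key j b]; exact hjb⟩
  · intro j b
    rw [key j b]
    have hr := rat_lam h (dNl (Function.update t k (sg D a x K j b)))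
      (fun K' b' => by
        rw [dNl_apply]
        exact dN_perp (gr a x) (gr_neN h) _ _ (gr_sg h K' 0 b') (SingN_perp h t ht k K j b))
      (q : ℤ) le_rfl (fun m hm => by
        rw [dNl_apply]
        exact hw j b m hm)
    rw [dNl_apply] at hr
    exact hr

end Pool.Agent.Helper10.PN
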