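import Pool.Agent.Helper10.PN.DetN

/-!
# PN-SPANN: the forms vanishing at the point

Copy of `Helper74/PQ/SpanL.lean` for `Fin (N + 1)`. `lf_rrN`: `freeL_rr` of
`Helper74/PQ/FreeL.lean`. `sg_eq`, `et_lf_span`: linearity (`l_0 = - ∑_(b > 0) l_b x_b`, `x_0 = 1`,
so `lf l = ∑_b l_b lf (rr x 0 b)`). `et_zeroN`: `SpanL_mo`, `SpanL_hom` with the ideal spanned by
the `lf (rr x 0 b)`; a polynomial multiple is a sum of monomial multiples. `et_powN`: `et_pow`.
-/

set_option autoImplicit false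

namespace Pool.Agent.Helper10.PN

open scoped BigOperators
open MvPolynomial
open Pool.Agent.Helper8.LG (Bdd RowBdd form mon)
open Pool.Agent.Helper49.LN (cP mo)
open Pool.Agent.Helper6.QS
open Pool.Agent.Helper74.Q8 (rr)
open Pool.Agent.Helper74.PQ

variable {Ω : Type*} [Field Ω] {N q : ℕ} {D : Sym (Fin (N + 1)) q → Derivation ℤ Ω Ω}
  {a : Sym (Fin (N + 1)) q → Ω} {B : Subfield Ω} {x : Fin (N + 1) → Ω}

theorem lf_rrN (x : Fin (N + 1) → Ω) (j b : Fin (N + 1)) :
    (lf (rr x j b) : MvPolynomial (Fin (N + 1)) Ω) = x j • X b - x b • X j := by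
  unfold lf rr
  have h1 : ∀ i, (x j * (if i = b then 1 else 0) - x b * (if i = j then 1 else 0)) •
      (X i : MvPolynomial (Fin (N + 1)) Ω) = (if i = b then x j • X b else 0) -
        (if i = j then x b • X j else 0) := by
    intro i
    rw [sub_smul]
    congr 1
    · split_ifs with h
      · rw [mul_one, h]
      · rw [mul_zero, zero_smul]
    · split_ifs with h
      · rw [mul_one, h]
      · rw [mul_zero, zero_smul]
  rw [Finset.sum_congr rfl fun i _ => h1 i, Finset.sum_sub_distrib, Finset.sum_ite_eq',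
    Finset.sum_ite_eq', if_pos (Finset.mem_univ _), if_pos (Finset.mem_univ _)]

theorem rr_xN (x : Fin (N + 1) → Ω) (j b : Fin (N + 1)) : dt (rr x j b) x = 0 := by
  rw [← eval_lf, lf_rrN, map_sub, smul_eval, smul_eval, eval_X, eval_X]
  ring

theorem sg_eq (K : Fin (N + 1) →₀ ℕ) (j b : Fin (N + 1)) :
    sg D a x K j b = x j • et D a x (monomial K 1 * X b) - x b • et D a x (monomial K 1 * X j) := by
  unfold sg
  rw [lf_rrN, mul_sub, mul_smul_comm, mul_smul_comm, map_sub, map_smul, map_smul]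

/-- `x_j X_b - x_b X_j = x_j (X_b - x_b X_0) - x_b (X_j - x_j X_0)` -/
theorem sg_zero (hx : x 0 = 1) (K : Fin (N + 1) →₀ ℕ) (j b : Fin (N + 1)) :
    sg D a x K j b = x j • sg D a x K 0 b - x b • sg D a x K 0 j := by
  rw [sg_eq, sg_eq, sg_eq, hx]
  funext l
  simp only [Pi.sub_apply, Pi.smul_apply, smul_eq_mul, one_mul]
  ring

theorem lf_span (hx : x 0 = 1) (l : Fin (N + 1) → Ω) (hl : dt l x = 0) :
    (lf l : MvPolynomial (Fin (N + 1)) Ω) = ∑ b, l b • lf (rr x 0 b) := by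
  have h1 : ∀ b, l b • (lf (rr x 0 b) : MvPolynomial (Fin (N + 1)) Ω) =
      l b • X b - (l b * x b) • X 0 := by
    intro b
    rw [lf_rrN, hx, one_smul, smul_sub, smul_smul]
  rw [Finset.sum_congr rfl fun b _ => h1 b, Finset.sum_sub_distrib, ← Finset.sum_smul]
  have h2 : ∑ b, l b * x b = 0 := hl
  rw [h2, zero_smul, sub_zero, lf]

theorem et_lf_span (hx : x 0 = 1) (P : MvPolynomial (Fin (N + 1)) Ω) (l : Fin (N + 1) → Ω)
    (hl : dt l x = 0) : et D a x (P * lf l) = ∑ b, l b • et D a x (P * lf (rr x 0 b)) := by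
  rw [lf_span hx l hl, Finset.mul_sum, map_sum]
  refine Finset.sum_congr rfl fun b _ => ?_
  rw [mul_smul_comm, map_smul]

/-- the ideal of the point -/
noncomputable def SpanN_I (x : Fin (N + 1) → Ω) : Ideal (MvPolynomial (Fin (N + 1)) Ω) :=
  Ideal.span (Set.range fun b => lf (rr x 0 b))

theorem SpanN_X (hx : x 0 = 1) (b : Fin (N + 1)) :
    (X b - C (x b) * X 0 : MvPolynomial (Fin (N + 1)) Ω) ∈ SpanN_I x := by
  have h1 : (X b - C (x b) * X 0 : MvPolynomial (Fin (N + 1)) Ω) = lf (rr x 0 b) := by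
    rw [lf_rrN, hx, one_smul, smul_eq_C_mul]
  rw [h1]
  exact Ideal.subset_span ⟨b, rfl⟩

theorem SpanN_mo (hx : x 0 = 1) (K : Multiset (Fin (N + 1))) :
    mo Ω K - C (eval x (mo Ω K)) * X 0 ^ Multiset.card K ∈ SpanN_I x := by
  induction K using Multiset.induction_on with
  | empty =>
    have h1 : mo Ω (0 : Multiset (Fin (N + 1))) = 1 := by simp [mo]
    rw [h1, map_one, C_1, Multiset.card_zero, pow_zero, one_mul, sub_self]
    exact zero_mem _
  | cons b K ih =>
    have h1 : mo Ω (b ::ₘ K) = X b * mo Ω K := by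
      rw [mo, mo, Multiset.map_cons, Multiset.prod_cons]
    have h2 : mo Ω (b ::ₘ K) - C (eval x (mo Ω (b ::ₘ K))) * X 0 ^ Multiset.card (b ::ₘ K) =
        X b * (mo Ω K - C (eval x (mo Ω K)) * X 0 ^ Multiset.card K) +
          C (eval x (mo Ω K)) * X 0 ^ Multiset.card K * (X b - C (x b) * X 0) := by
      rw [h1, map_mul, eval_X, C_mul, Multiset.card_cons, pow_succ]
      ring
    rw [h2]
    exact add_mem (Ideal.mul_mem_left _ _ ih) (Ideal.mul_mem_left _ _ (SpanN_X hx b))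

theorem SpanN_hom (hx : x 0 = 1) (n : ℕ) (f : MvPolynomial (Fin (N + 1)) Ω)
    (hf : f.IsHomogeneous n) : f - C (eval x f) * X 0 ^ n ∈ SpanN_I x := by
  have h0 : f - C (eval x f) * X 0 ^ n = ∑ m ∈ f.support, coeff m f •
      (mo Ω (Finsupp.toMultiset m) - C (eval x (mo Ω (Finsupp.toMultiset m))) * X 0 ^ n) := by
    have h1 := Pool.Agent.Helper49.LN.mo_span f
    have h2 : eval x f = ∑ m ∈ f.support, coeff m f * eval x (mo Ω (Finsupp.toMultiset m)) := by
      conv_lhs => rw [h1]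
      rw [map_sum]
      exact Finset.sum_congr rfl fun m _ => by rw [smul_eval]
    have h3 : f - C (eval x f) * X 0 ^ n =
        (∑ m ∈ f.support, coeff m f • mo Ω (Finsupp.toMultiset m)) -
          C (∑ m ∈ f.support, coeff m f * eval x (mo Ω (Finsupp.toMultiset m))) * X 0 ^ n := by
      rw [← h1, ← h2]
    rw [h3, map_sum, Finset.sum_mul, ← Finset.sum_sub_distrib]
    refine Finset.sum_congr rfl fun m _ => ?_
    rw [smul_sub, C_mul, smul_eq_C_mul, smul_eq_C_mul, mul_assoc]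
  rw [h0]
  refine Submodule.sum_mem _ fun m hm => ?_
  have hc : Multiset.card (Finsupp.toMultiset m) = n := by
    rw [← Pool.Agent.Helper49.LN.toFinsupp_degree, Finsupp.toMultiset_toFinsupp]
    by_contra hne
    exact (mem_support_iff.1 hm) (hf.coeff_eq_zero hne)
  rw [smul_eq_C_mul]
  refine Ideal.mul_mem_left _ _ ?_
  have h3 := SpanN_mo hx (Finsupp.toMultiset m)
  rwa [hc] at h3

/-- all multiples of the `lf (rr x 0 b)` -/
theorem SpanN_mul {V : Type*} [AddCommGroup V] [Module Ω V]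
    (Λ : (Fin (N + 1) → Ω) →ₗ[Ω] V) (hΛ : ∀ K b, Λ (sg D a x K 0 b) = 0)
    (P : MvPolynomial (Fin (N + 1)) Ω) (b : Fin (N + 1)) :
    Λ (et D a x (P * lf (rr x 0 b))) = 0 := by
  rw [P.as_sum, Finset.sum_mul, map_sum, map_sum]
  refine Finset.sum_eq_zero fun K _ => ?_
  have h1 : (monomial K (coeff K P) : MvPolynomial (Fin (N + 1)) Ω) =
      coeff K P • monomial K 1 := by
    rw [smul_monomial, smul_eq_mul, mul_one]
  have h2 : Λ (et D a x (monomial K 1 * lf (rr x 0 b))) = 0 := hΛ K b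
  rw [h1, smul_mul_assoc, map_smul, map_smul, h2, smul_zero]

/-- linear functionals which kill the `sg K 0 b` -/
theorem et_zeroN {V : Type*} [AddCommGroup V] [Module Ω V] (hx : x 0 = 1)
    (Λ : (Fin (N + 1) → Ω) →ₗ[Ω] V) (hΛ : ∀ K b, Λ (sg D a x K 0 b) = 0)
    (f : MvPolynomial (Fin (N + 1)) Ω) (hf : ev q x f = 0) : Λ (et D a x f) = 0 := by
  have h1 := SpanN_hom hx q (homogeneousComponent q f) (homogeneousComponent_isHomogeneous q f)
  rw [← ev_part, hf, C_0, zero_mul, sub_zero] at h1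
  obtain ⟨P, h2⟩ := Ideal.mem_span_range_iff_exists_fun.1 h1
  have h3 : et D a x (f * 1) = et D a x (homogeneousComponent q f * 1) :=
    ev_cP_part (Ω := Ω)
      (fun J l => D J (x l) - (q : Ω)⁻¹ * (D J (form a x) / form a x) * x l)
      q 0 (add_zero q) f 1 (isHomogeneous_one (Fin (N + 1)) Ω)
  rw [mul_one, mul_one] at h3
  rw [h3, ← h2, map_sum, map_sum]
  exact Finset.sum_eq_zero fun b _ => SpanN_mul Λ hΛ (P b) b

/-- `X_m^q / x_m^q` instead of `X_0^q` -/
theorem et_powN {V : Type*} [AddCommGroup V] [Module Ω V] (hx : x 0 = 1)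
    (Λ : (Fin (N + 1) → Ω) →ₗ[Ω] V) (hΛ : ∀ K b, Λ (sg D a x K 0 b) = 0) (m : Fin (N + 1)) :
    Λ (et D a x (X m ^ q)) = x m ^ q • Λ (et D a x (X 0 ^ q)) := by
  have h1 : ev q x (X m ^ q - x m ^ q • X 0 ^ q : MvPolynomial (Fin (N + 1)) Ω) = 0 := by
    rw [map_sub, map_smul, ev_hom q x _ (by simpa using (isHomogeneous_X Ω m).pow q),
      ev_hom q x _ (by simpa using (isHomogeneous_X Ω (0 : Fin (N + 1))).pow q), map_pow, map_pow,
      eval_X, eval_X, hx, one_pow, smul_eq_mul, mul_one, sub_self]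
  have h2 := et_zeroN hx Λ hΛ _ h1
  rw [map_sub, map_smul, map_sub, map_smul] at h2
  exact sub_eq_zero.1 h2

section

variable [CharZero Ω]

theorem q_ne (h : PtN D a B x) : (q : Ω) ≠ 0 := by
  have h1 := h.hq
  have h2 := h.hN
  exact Nat.cast_ne_zero.2 (by omega)

/-- the vectors `et (P l)`, `l . x = 0`, are orthogonal to the gradient -/
theorem gr_lfN (h : PtN D a B x) (P : MvPolynomial (Fin (N + 1)) Ω) (l : Fin (N + 1) → Ω)
    (hl : dt l x = 0) : dt (gr a x) (et D a x (P * lf l)) = 0 := by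
  obtain ⟨k, hk⟩ : ∃ k, q = k + 1 := ⟨q - 1, by
    have h1 := h.hq
    have h2 := h.hN
    omega⟩
  rw [gr_et D a h.frame.dual (q_ne h) x h.ne]
  have h3 : ev q x (P * lf l) = 0 := by
    subst hk
    rw [ev_lf, hl, mul_zero]
  rw [h3, neg_zero]

theorem gr_sg (h : PtN D a B x) (K : Fin (N + 1) →₀ ℕ) (j b : Fin (N + 1)) :
    dt (gr a x) (sg D a x K j b) = 0 :=
  gr_lfN h _ _ (rr_xN x j b)

theorem gr_powN (h : PtN D a B x) : dt (gr a x) (et D a x (X 0 ^ q)) = -1 := by
  rw [gr_et D a h.frame.dual (q_ne h) x h.ne,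
    ev_hom q x _ (by simpa using (isHomogeneous_X Ω (0 : Fin (N + 1))).pow q), map_pow, eval_X,
    h.one, one_pow]

theorem gr_neN (h : PtN D a B x) : gr a x ≠ 0 := by
  intro h0
  have h1 := gr_x a x
  rw [h0] at h1
  have h2 : dt (0 : Fin (N + 1) → Ω) x = 0 := by
    rw [Pool.Agent.Helper74.Q8.dt_comm', Pool.Agent.Helper74.Q8.dt_zero']
  rw [h2] at h1
  rcases mul_eq_zero.1 h1.symm with h3 | h3
  · exact q_ne h h3
  · exact h.ne h3

/-- all forms vanishing at the point -/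
theorem gr_evN (h : PtN D a B x) (f : MvPolynomial (Fin (N + 1)) Ω) (hf : ev q x f = 0) :
    dt (gr a x) (et D a x f) = 0 := by
  rw [gr_et D a h.frame.dual (q_ne h) x h.ne, hf, neg_zero]

end

/-- in the equivariant case the `et (∂F/∂X_i l)`, `l . x = 0`, vanish -/
theorem eqv_lfN (hE : Eqv D a x) (l : Fin (N + 1) → Ω) (hl : dt l x = 0) (i : Fin (N + 1)) :
    et D a x (pderiv i (Fp a) * lf l) = 0 := by
  have h1 : (pderiv i (Fp a) * lf l : MvPolynomial (Fin (N + 1)) Ω) =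
      ∑ j, l j • (X j * pderiv i (Fp a)) := by
    rw [lf, Finset.mul_sum]
    refine Finset.sum_congr rfl fun j _ => ?_
    rw [mul_smul_comm, mul_comm]
  rw [h1, map_sum]
  have h2 : ∀ j ∈ Finset.univ, et D a x (l j • (X j * pderiv i (Fp a))) =
      -(Pi.single i (l j * x j) : Fin (N + 1) → Ω) := by
    intro j _
    rw [map_smul, hE i j, smul_neg, ← Pi.single_smul, smul_eq_mul]
  rw [Finset.sum_congr rfl h2, Finset.sum_neg_distrib, neg_eq_zero]
  funext k
  rw [Finset.sum_apply, Pi.zero_apply]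
  by_cases hk : k = i
  · subst hk
    simp only [Pi.single_eq_same]
    exact hl
  · exact Finset.sum_eq_zero fun j _ => Pi.single_eq_of_ne hk _

end Pool.Agent.Helper10.PN
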