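import Pool.Agent.Helper10.PQ.UlLFrame
import Pool.Agent.Helper10.PQ.MasonLine
import Pool.Agent.Helper10.PQ.StageOneL
import Pool.Agent.Helper10.PN.LineEv
import Pool.Agent.Helper10.PN.ParamN
import Pool.Agent.Helper10.PN.BadN
import Pool.Agent.Helper6.QS.Der

/-!
# PN-STAGEONEN: infinitely many of the points are bounded

Copy of `Helper10/PQ/StageOneL.lean`.
-/

set_option autoImplicit false

namespace Pool.Agent.Helper10.PN

open scoped BigOperators
open Pool.Agent.Helper8.LG Pool.Agent.Helper10.LB
open Pool.Agent.Helper74.PQ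
open Pool.Agent.Helper6.QS (dt)
open Pool.Agent.Helper10.PQ (ul_lframe mason_line dirs_a ultra_const)

universe u v

/-- a bounded point -/
theorem bdd_infN {k : Type v} {L : Type u} [Field k] [Field L] [Algebra k L] {Ω : Type u}
    [Field Ω] {N : ℕ} {Q : (ℕ → L) →+* Ω} (hQ : IsUl Q) (X : ℕ → Fin (N + 1) → L)
    (hx : ∀ l, (Q fun m => X m l) ∈ BF k hQ) :
    ∃ V : Submodule k L, FiniteDimensional k V ∧
      {m : ℕ | ∃ G : L, G ≠ 0 ∧ ∀ l, G * X m l ∈ V}.Infinite := by
  obtain ⟨V, hV, n, d, hn, hd, hd0, h⟩ := bset_common hQ (fun l => Q fun m => X m l)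
    (fun l => (mem_BF k hQ _).1 (hx l))
  refine ⟨V, hV, ?_⟩
  have h3 : ∀ᶠ m in (Filter.hyperfilter ℕ : Filter ℕ), ∀ l, d m * X m l = n l m := by
    rw [Filter.eventually_all]
    intro l
    have h4 : Q (fun m => X m l * d m) = Q (n l) := by
      rw [← h l, ← map_mul]
      rfl
    rw [ul_eq Q hQ.ker] at h4
    filter_upwards [h4] with m hm
    rw [← hm, mul_comm]
  intro hfin'
  refine hfin'.notMem_hyperfilter ?_
  refine Filter.mem_of_superset h3 ?_
  intro m hm
  exact ⟨d m, hd0 m, fun l => by rw [hm l]; exact hn l m⟩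

theorem stage_one_n {N q : ℕ} (hN : 3 ≤ N) (hq : q = 2 * N) (hC : KeyN.{u} N q) {k : Type v} {L : Type u} [Field k]
    [Field L] [CharZero L] [Algebra k L] (a : Sym (Fin (N + 1)) q → L) (hind : AlgebraicIndependent k a)
    (hfin : FiniteDimensional (IntermediateField.adjoin k (Set.range a)) L)
    (D : Sym (Fin (N + 1)) q → Derivation ℤ L L) (hD : ∀ I J, D J (a I) = if I = J then 1 else 0)
    (hDk : ∀ J (c : k), D J (algebraMap k L c) = 0) (A : Subalgebra k L) (hA : A.FG)
    (X : ℕ → Fin (N + 1) → L) (h0 : ∀ m, X m 0 = 1) (hne : ∀ m, form a (X m) ≠ 0)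
    (hint : ∀ m (J : Sym (Fin (N + 1)) q), mon (X m) J / form a (X m) ∈ A)
    (hline : ∀ W : Submodule L (Fin (N + 1) → L), Module.finrank L W ≤ 2 → {m | X m ∈ W}.Finite) :
    ∃ V : Submodule k L, FiniteDimensional k V ∧
      {m : ℕ | ∃ G : L, G ≠ 0 ∧ ∀ l, G * X m l ∈ V}.Infinite := by
  classical
  obtain ⟨Ω, instΩ, Q, hsurj, hker⟩ := ul_exists L
  have hQ : IsUl Q := ⟨hsurj, hker⟩
  let algLΩ : Algebra L Ω := (Q.comp (Pi.constRingHom ℕ L)).toAlgebra
  have : CharZero Ω := charZero_of_injective_algebraMap (algebraMap L Ω).injective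
  have halgL : ∀ b : L, algebraMap L Ω b = Q fun _ => b := fun _ => rfl
  set x : Fin (N + 1) → Ω := fun l => Q fun m => X m l with hx
  have hfr := ul_lframe hQ a hind hfin D hD hDk A hA X hne hint
  have hx0 : x 0 = 1 := by
    rw [hx]
    simp only [h0]
    exact map_one Q
  have hxF : form (fun J => Q fun _ => a J) x ≠ 0 := by
    rw [hx, ← ul_Q_form]
    exact bf_ne hQ _ (Filter.Eventually.of_forall hne)
  have hpt : PtN (fun J => ulDer Q hQ.surj hQ.ker (D J)) (fun J => Q fun _ => a J) (BF k hQ) x :=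
    ⟨hN, hq, hfr, hx0, hxF⟩
  have hLn := hC Ω _ _ _ x hpt
  rcases param_n hfr.mem hx0 hxF hLn with h1 |
    ⟨u, v, lam, z, b, b', hu, hv, hpi, htop, hlam, -, hxuv⟩
  · exact bdd_infN hQ X h1
  by_cases hr : ∀ h : Polynomial Ω, (∀ n, h.coeff n ∈ BF k hQ) → h.Monic → h.Separable →
      h ∣ lf (fun J => Q fun _ => a J) u v → (∃ n, lf (fun J => Q fun _ => a J) u v ∣ h ^ n) →
      3 ≤ h.natDegree
  · have hz := mason_line hQ a (by omega) a D (dirs_a a hind hfin D hD hDk) A hA X hne hint u v hu
      hv b b' hpi htop lam z hlam hxuv hr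
    have h2 : lam ∈ BF k hQ := by
      have h3 : lam * (u 0 + z * v 0) = 1 := by rw [← hxuv 0, hx0]
      rw [eq_inv_of_mul_eq_one_left h3]
      exact inv_mem (add_mem (hu 0) (mul_mem hz (hv 0)))
    refine bdd_infN hQ X fun l => ?_
    have h4 := hxuv l
    show x l ∈ _
    rw [h4]
    exact mul_mem h2 (add_mem (hu l) (mul_mem hz (hv l)))
  -- the line is defined over `L`
  exfalso
  push Not at hr
  obtain ⟨h, -, hmon, hsep, hdvd, ⟨n, hn⟩, hdeg⟩ := hr
  set w : Fin (N + 1) → Fin (N + 1) → Ω := fun j l => u j * v l - u l * v j with hw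
  have hw0 : w b b' ≠ 0 := hpi
  have hrho : ∀ j l, ∃ c : L, algebraMap L Ω c = w j l / w b b' := by
    intro j l
    refine ultra_const hQ halgL _ ?_
    by_contra hnalg
    obtain ⟨δ, hδB, hδ⟩ := Pool.Agent.Helper6.QS.exists_der (algebraMap L Ω).fieldRange
      (w j l / w b b') (fun hal => hnalg (by
        obtain ⟨p, hp0, hp⟩ := hal
        have hsur : Function.Surjective (algebraMap L Ω).rangeRestrictField := by
          rintro ⟨_, c, rfl⟩
          exact ⟨c, rfl⟩
        obtain ⟨p', rfl⟩ := Polynomial.map_surjective _ hsur p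
        refine ⟨p', ?_, ?_⟩
        · rintro rfl
          exact hp0 (Polynomial.map_zero _)
        · rw [Polynomial.aeval_def, Polynomial.eval₂_map] at hp
          exact hp))
    obtain ⟨c, hc⟩ := bad_n hq (fun J => Q fun _ => a J)
      (fun J => ulDer Q hQ.surj hQ.ker (D J)) hfr.dual u v b b' hpi htop h hmon.ne_zero n hn hdeg δ
      (fun J => hδB _ ⟨a J, rfl⟩)
    have h5 : w b b' * δ (w j l) = w j l * δ (w b b') := by
      show w b b' * δ (u j * v l - u l * v j) = w j l * δ (u b * v b' - u b' * v b)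
      rw [hc j l, hc b b']
      show w b b' * (c * w j l) = w j l * (c * w b b')
      ring
    apply hδ
    have h6 : w j l = (w j l / w b b') * w b b' := by field_simp
    have h7 : δ (w j l) = (w j l / w b b') * δ (w b b') + w b b' * δ (w j l / w b b') := by
      conv_lhs => rw [h6]
      rw [δ.leibniz]
      simp only [smul_eq_mul]
    have h8 : w b b' * w b b' * δ (w j l / w b b') = 0 := by
      have h9 : w b b' * ((w j l / w b b') * δ (w b b')) = w j l * δ (w b b') := by field_simp
      rw [h7] at h5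
      linear_combination h5 - h9
    rcases mul_eq_zero.1 h8 with h10 | h10
    · exact absurd (mul_self_eq_zero.1 h10) hw0
    · exact h10
  choose c hc using hrho
  -- the line over `L`
  have hcbb : c b b' = 1 := by
    apply (algebraMap L Ω).injective
    rw [hc, div_self hw0, map_one]
  have hcbb' : c b' b' = 0 := by
    apply (algebraMap L Ω).injective
    rw [hc, map_zero]
    show (u b' * v b' - u b' * v b') / w b b' = 0
    rw [sub_self, zero_div]
  have hcb : c b b = 0 := by
    apply (algebraMap L Ω).injective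
    rw [hc, map_zero]
    show (u b * v b - u b * v b) / w b b' = 0
    rw [sub_self, zero_div]
  have hcb'b : c b' b = -1 := by
    apply (algebraMap L Ω).injective
    rw [hc, map_neg, map_one]
    have h1 : w b' b = - w b b' := by
      show u b' * v b - u b * v b' = - (u b * v b' - u b' * v b)
      ring
    rw [h1, neg_div, div_self hw0]
  have hp : c b b * c b' b' - c b b' * c b' b ≠ 0 := by
    rw [hcbb, hcbb', hcb, hcb'b]
    simp
  have hev := line_ev hQ X (c b) (c b') b b' hp (lam * (u b' + z * v b')) (-(lam * (u b + z * v b)))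
    (fun l => by
      show x l = _
      rw [← halgL, ← halgL, hc, hc, hxuv l]
      show _ = lam * (u b' + z * v b') * ((u b * v l - u l * v b) / w b b') +
        -(lam * (u b + z * v b)) * ((u b' * v l - u l * v b') / w b b')
      field_simp
      show _ = _
      have h1 : w b b' = u b * v b' - u b' * v b := rfl
      rw [h1]
      ring)
  have hfr2 : Module.finrank L (Submodule.span L ({c b, c b'} : Set (Fin (N + 1) → L))) ≤ 2 := by
    classical
    have h1 := finrank_span_finset_le_card (R := L) ({c b, c b'} : Finset (Fin (N + 1) → L))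
    rw [Finset.coe_pair] at h1
    exact h1.trans Finset.card_le_two
  exact (hline _ hfr2).notMem_hyperfilter hev

end Pool.Agent.Helper10.PN
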