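import Pool.Agent.Helper74.PQ.TanLine
import Pool.Agent.Helper10.PN.Defs

/-!
# PN-TANN: lines which meet the generic hypersurface of degree `q = 2 N` in two points do not move

Copy of the second half of `Helper74/PQ/TanLine.lean`: the linear map
`Φ : K^(N+1) × K^(N+1) × K → K^(q+1)` is onto, its kernel has dimension `2 (N + 1) + 1 - (q + 1) = 2`.
-/

set_option autoImplicit false

namespace Pool.Agent.Helper10.PN

open scoped BigOperators
open MvPolynomial
open Pool.Agent.Helper8.LG (form mon)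
open Pool.Agent.Helper49.LN (cP mo)
open Pool.Agent.Helper6.QS
open Pool.Agent.Helper74.Q8 (rr)
open Pool.Agent.Helper74.PQ

section

variable {K : Type*} [Field K] {N q : ℕ}

/-- the linear map `Φ` -/
noncomputable def tanN_Phi (g : Fin (q + 1) → Fin (N + 1) → K) (c : Fin (q + 1) → K) :
    ((Fin (N + 1) → K) × (Fin (N + 1) → K) × K) →ₗ[K] (Fin (q + 1) → K) where
  toFun v j := (∑ l, g j l * (v.1 l + (((j : ℕ) : K)) * v.2.1 l)) - v.2.2 * c j
  map_add' v w := by
    funext j
    simp only [Prod.fst_add, Prod.snd_add, Pi.add_apply]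
    have h1 : ∀ l, g j l * (v.1 l + w.1 l + (((j : ℕ) : K)) * (v.2.1 l + w.2.1 l)) =
        g j l * (v.1 l + (((j : ℕ) : K)) * v.2.1 l) + g j l * (w.1 l + (((j : ℕ) : K)) * w.2.1 l) :=
      fun l => by ring
    rw [Finset.sum_congr rfl fun l _ => h1 l, Finset.sum_add_distrib]
    ring
  map_smul' t v := by
    funext j
    simp only [Prod.smul_fst, Prod.smul_snd, Pi.smul_apply, smul_eq_mul, RingHom.id_apply]
    have h1 : ∀ l, g j l * (t * v.1 l + (((j : ℕ) : K)) * (t * v.2.1 l)) =
        t * (g j l * (v.1 l + (((j : ℕ) : K)) * v.2.1 l)) := fun l => by ring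
    rw [Finset.sum_congr rfl fun l _ => h1 l, ← Finset.mul_sum]
    ring

/-- two independent elements of the kernel span it -/
theorem tanN_ker (hq : q = 2 * N) (Φ : ((Fin (N + 1) → K) × (Fin (N + 1) → K) × K) →ₗ[K] (Fin (q + 1) → K))
    (hΦ : ∀ j, ∃ v, ∃ c : K, c ≠ 0 ∧ Φ v = Pi.single j c)
    (p r : Fin (N + 1) → K) (y y' : K) (hp : p ≠ 0) (hr : r ≠ 0)
    (h1 : Φ (p, r, y) = 0) (h2 : Φ (p, 0, y') = 0) (v : (Fin (N + 1) → K) × (Fin (N + 1) → K) × K)
    (hv : Φ v = 0) : ∃ c c' : K, (∀ l, v.1 l = c * p l) ∧ ∀ l, v.2.1 l = c' * r l := by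
  have hsurj : LinearMap.range Φ = ⊤ := by
    rw [LinearMap.range_eq_top]
    intro w
    choose u c hc hu using hΦ
    refine ⟨∑ j, (w j * (c j)⁻¹) • u j, ?_⟩
    rw [map_sum]
    funext i
    rw [Finset.sum_apply, Finset.sum_eq_single i]
    · rw [map_smul, hu, Pi.smul_apply, Pi.single_eq_same, smul_eq_mul, mul_assoc,
        inv_mul_cancel₀ (hc i), mul_one]
    · intro j _ hj
      rw [map_smul, hu, Pi.smul_apply, Pi.single_eq_of_ne (Ne.symm hj), smul_zero]
    · intro h
      exact absurd (Finset.mem_univ _) h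
  have hdim := LinearMap.finrank_range_add_finrank_ker Φ
  rw [hsurj, finrank_top, Module.finrank_prod, Module.finrank_prod, Module.finrank_pi,
    Module.finrank_pi, Module.finrank_self, Fintype.card_fin, Fintype.card_fin] at hdim
  have hdim2 : Module.finrank K (LinearMap.ker Φ) = 2 := by omega
  have hli : LinearIndependent K ![((p, r, y) : (Fin (N + 1) → K) × (Fin (N + 1) → K) × K), (p, 0, y')] := by
    rw [LinearIndependent.pair_iff]
    intro s t hst
    have h3 : s • r + t • (0 : Fin (N + 1) → K) = 0 := congrArg (fun u => u.2.1) hst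
    have h4 : s • p + t • p = 0 := congrArg (fun u => u.1) hst
    rw [smul_zero, add_zero] at h3
    have h5 : s = 0 := (smul_eq_zero.1 h3).resolve_right hr
    rw [h5, zero_smul, zero_add] at h4
    exact ⟨h5, (smul_eq_zero.1 h4).resolve_right hp⟩
  have hspan := finrank_span_eq_card hli
  rw [Fintype.card_fin] at hspan
  have hle : Submodule.span K (Set.range
      ![((p, r, y) : (Fin (N + 1) → K) × (Fin (N + 1) → K) × K), (p, 0, y')]) ≤ LinearMap.ker Φ := by
    rw [Submodule.span_le]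
    rintro _ ⟨i, rfl⟩
    fin_cases i
    · exact h1
    · exact h2
  have heq := Submodule.eq_of_le_of_finrank_le hle (by rw [hdim2, hspan])
  have hmem : v ∈ Submodule.span K (Set.range
      ![((p, r, y) : (Fin (N + 1) → K) × (Fin (N + 1) → K) × K), (p, 0, y')]) := by
    rw [heq]
    exact hv
  obtain ⟨c, hc⟩ := (Submodule.mem_span_range_iff_exists_fun K).1 hmem
  rw [Fin.sum_univ_two] at hc
  have h3 : c 0 • p + c 1 • p = v.1 := congrArg (fun u => u.1) hc
  have h4 : c 0 • r + c 1 • (0 : Fin (N + 1) → K) = v.2.1 := congrArg (fun u => u.2.1) hc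
  refine ⟨c 0 + c 1, c 0, fun l => ?_, fun l => ?_⟩
  · rw [← h3]
    simp only [Pi.add_apply, Pi.smul_apply, smul_eq_mul]
    ring
  · rw [← h4]
    simp only [Pi.add_apply, Pi.smul_apply, smul_eq_mul, Pi.zero_apply]
    ring

/-- a form of degree four which vanishes at four of the five points -/
theorem tanN_sep [CharZero K] (p r : Fin (N + 1) → K) (b b' : Fin (N + 1))
    (hpr : p b * r b' - p b' * r b ≠ 0) (j : Fin (q + 1)) :
    ∃ g : Sym (Fin (N + 1)) q → K, (∀ i : Fin (q + 1), i ≠ j →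
      form g (fun l => p l + ((i : ℕ) : K) * r l) = 0) ∧
      form g (fun l => p l + ((j : ℕ) : K) * r l) ≠ 0 := by
  have hhom : (∏ i ∈ (Finset.univ : Finset (Fin (q + 1))).erase j,
      lf (rr p b b' - ((i : ℕ) : K) • rr r b' b)).IsHomogeneous q := by
    have h1 : (∏ i ∈ (Finset.univ : Finset (Fin (q + 1))).erase j,
        lf (rr p b b' - ((i : ℕ) : K) • rr r b' b)).IsHomogeneous
          (∑ _i ∈ (Finset.univ : Finset (Fin (q + 1))).erase j, 1) :=
      IsHomogeneous.prod _ _ _ fun i _ => lf_hom _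
    have h2 : (∑ _i ∈ (Finset.univ : Finset (Fin (q + 1))).erase j, 1) = q := by
      rw [Finset.sum_const, Finset.card_erase_of_mem (Finset.mem_univ j), Finset.card_univ,
        Fintype.card_fin]
      simp
    rwa [h2] at h1
  have hev : ∀ k i : ℕ, eval (fun l => p l + (k : K) * r l)
      (lf (rr p b b' - (i : K) • rr r b' b)) = ((k : K) - i) * (p b * r b' - p b' * r b) := by
    intro k i
    rw [eval_lf, Pool.Agent.Helper74.Q8.dt_comm', sub_eq_add_neg,
      Pool.Agent.Helper74.Q8.dt_add', ← neg_smul, Pool.Agent.Helper74.Q8.dt_smul',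
      Pool.Agent.Helper74.Q8.dt_comm', tanLine_rr, Pool.Agent.Helper74.Q8.dt_comm', tanLine_rr]
    ring
  obtain ⟨g, hg⟩ := tanLine_form _ hhom
  refine ⟨g, fun i hi => ?_, ?_⟩
  · rw [hg, map_prod]
    refine Finset.prod_eq_zero (i := i) (Finset.mem_erase.2 ⟨hi, Finset.mem_univ _⟩) ?_
    rw [hev, sub_self, zero_mul]
  · rw [hg, map_prod]
    refine Finset.prod_ne_zero_iff.2 fun i hi => ?_
    rw [hev]
    refine mul_ne_zero (sub_ne_zero.2 fun h => ?_) hpr
    exact (Finset.mem_erase.1 hi).1 (Fin.ext (Nat.cast_injective h).symm)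

end

theorem tan_n {K : Type*} [Field K] [CharZero K] {N q : ℕ} (hq : q = 2 * N)
    (a : Sym (Fin (N + 1)) q → K) (D : Sym (Fin (N + 1)) q → Derivation ℤ K K)
    (hD : ∀ I J, D J (a I) = if I = J then 1 else 0) (p r : Fin (N + 1) → K) (b b' : Fin (N + 1))
    (hpr : p b * r b' - p b' * r b ≠ 0) (lam : K) (α β : ℕ) (hαβ : α + β = q)
    (hF : ∀ s t : K, form a (fun l => s * p l + t * r l) = lam * s ^ α * t ^ β)
    (δ : Derivation ℤ K K) (hδ : ∀ J, δ (a J) = 0) :
    ∃ c c' : K, (∀ l, δ (p l) = c * p l) ∧ ∀ l, δ (r l) = c' * r l := by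
  have hp : p ≠ 0 := by
    rintro rfl
    exact hpr (by simp)
  have hr : r ≠ 0 := by
    rintro rfl
    exact hpr (by simp)
  obtain ⟨x, hx⟩ : ∃ x : Fin (q + 1) → Fin (N + 1) → K, ∀ j, x j = fun l => p l + ((j : ℕ) : K) * r l :=
    ⟨_, fun _ => rfl⟩
  have hFx : ∀ j, form a (x j) = lam * ((j : ℕ) : K) ^ β := by
    intro j
    have h1 := hF 1 ((j : ℕ) : K)
    rw [one_pow, mul_one] at h1
    rw [← h1, hx]
    congr 1
    funext l
    rw [one_mul]
  -- any derivation
  have hder : ∀ d : Derivation ℤ K K, tanN_Phi (fun j => gr a (x j))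
      (fun j => ((j : ℕ) : K) ^ β) (fun l => d (p l), fun l => d (r l), d lam) =
        fun j => - ∑ J : Sym (Fin (N + 1)) q, d (a J) * mon (x j) J := by
    intro d
    funext j
    have h1 := tanLine_der a (x j) d
    rw [hFx, Derivation.leibniz, smul_eq_mul, smul_eq_mul, ← Nat.cast_pow,
      Derivation.map_natCast, mul_zero, zero_add] at h1
    have h2 : ∑ l, gr a (x j) l * d (x j l) =
        ∑ l, gr a (x j) l * (d (p l) + ((j : ℕ) : K) * d (r l)) := by
      refine Finset.sum_congr rfl fun l _ => ?_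
      rw [hx, map_add, Derivation.leibniz, Derivation.map_natCast, smul_zero, add_zero,
        smul_eq_mul]
    rw [h2, Nat.cast_pow] at h1
    show (∑ l, gr a (x j) l * (d (p l) + ((j : ℕ) : K) * d (r l))) -
      d lam * ((j : ℕ) : K) ^ β = _
    linear_combination -h1
  have hk1 : tanN_Phi (fun j => gr a (x j)) (fun j => ((j : ℕ) : K) ^ β)
      (p, r, (q : K) * lam) = 0 := by
    funext j
    show (∑ l, gr a (x j) l * (p l + ((j : ℕ) : K) * r l)) -
      (q : K) * lam * ((j : ℕ) : K) ^ β = 0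
    have h1 : (∑ l, gr a (x j) l * (p l + ((j : ℕ) : K) * r l)) = dt (gr a (x j)) (x j) := by
      rw [dt]
      refine Finset.sum_congr rfl fun l _ => ?_
      rw [hx]
    rw [h1, gr_x, hFx]
    ring
  have hk2 : tanN_Phi (fun j => gr a (x j)) (fun j => ((j : ℕ) : K) ^ β)
      (p, 0, (α : K) * lam) = 0 := by
    funext j
    show (∑ l, gr a (x j) l * (p l + ((j : ℕ) : K) * (0 : Fin (N + 1) → K) l)) -
      (α : K) * lam * ((j : ℕ) : K) ^ β = 0
    have h1 := tanLine_pder a p (fun l => ((j : ℕ) : K) * r l) (lam * ((j : ℕ) : K) ^ β) α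
      (fun s => by rw [hF]; ring)
    have h2 : (∑ l, gr a (x j) l * (p l + ((j : ℕ) : K) * (0 : Fin (N + 1) → K) l)) =
        ∑ l, gr a (fun l => p l + ((j : ℕ) : K) * r l) l * p l := by
      refine Finset.sum_congr rfl fun l _ => ?_
      rw [hx, Pi.zero_apply, mul_zero, add_zero]
    rw [h2, h1]
    ring
  have hk3 : tanN_Phi (fun j => gr a (x j)) (fun j => ((j : ℕ) : K) ^ β)
      (fun l => δ (p l), fun l => δ (r l), δ lam) = 0 := by
    rw [hder]
    funext j
    rw [Finset.sum_eq_zero fun J _ => by rw [hδ, zero_mul], neg_zero]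
    rfl
  have hon : ∀ j, ∃ v, ∃ c : K, c ≠ 0 ∧ tanN_Phi (fun j => gr a (x j))
      (fun j => ((j : ℕ) : K) ^ β) v = Pi.single j c := by
    intro j
    obtain ⟨g, hg, hgj⟩ := tanN_sep p r b b' hpr j
    refine ⟨(fun l => tanLine_D D g (p l), fun l => tanLine_D D g (r l), tanLine_D D g lam),
      - form g (x j), ?_, ?_⟩
    · rw [hx]
      exact neg_ne_zero.2 hgj
    · rw [hder]
      funext i
      have h3 : (∑ J : Sym (Fin (N + 1)) q, tanLine_D D g (a J) * mon (x i) J) = form g (x i) := by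
        rw [form]
        exact Finset.sum_congr rfl fun J _ => by rw [tanLine_Da a D hD]
      rw [h3]
      by_cases hi : i = j
      · rw [hi, Pi.single_eq_same]
      · rw [Pi.single_eq_of_ne hi, hx, hg i hi, neg_zero]
  exact tanN_ker hq _ hon p r _ _ hp hr hk1 hk2 _ hk3

end Pool.Agent.Helper10.PN
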